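import Pool.Agent.Lib.MP_551055_al.W17.Defs
import Pool.Agent.Lib.MP_551055_al.T6.Lps

/-!
# Trees and products: definitions of part K (nil modules)

All directions are acyclic. Positions are families of oriented edges `x = (x i)`, the edge `x i` goes
from the root `(x i).1` to the far end `(x i).2`. A nil module is a `ℤ[N]`-module graded by the
positions, with commuting nilpotent operators `nu i` which move the edge `x i` one step forward.
-/

set_option autoImplicit false

namespace Pool.Agent.Lib.MP_551055_al.W17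

open Pool.Agent.Lib.MP_551055_al
open Pool.Agent.Lib.MP_551055_al.LS (TreeAct ZN)
open Pool.Agent.Lib.MP_551055_al.MT
open Pool.Agent.Lib.MP_551055_al.T4 (Perf)
open Matrix

/-! ## Positions -/

section

variable {D : Type} {V : D → Type}

/-- Positions: a pair of vertices in every direction. -/
abbrev Pos (V : D → Type) : Type := ∀ i, V i × V i

/-- All pairs are (oriented) edges. -/
def OE (T : ∀ i, SimpleGraph (V i)) (x : Pos V) : Prop := ∀ i, (T i).Adj (x i).1 (x i).2

/-- `y` is obtained from `x` by moving the edge in the direction `i` one step forward. -/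
def Nx (T : ∀ i, SimpleGraph (V i)) (i : D) (x y : Pos V) : Prop :=
  (∀ j, j ≠ i → y j = x j) ∧ (y i).1 = (x i).2 ∧ (T i).Adj (y i).1 (y i).2 ∧ (y i).2 ≠ (x i).1

end

/-! ## Nil modules -/

section

variable {Γ : Type} [Group Γ] {D : Type} {V : D → Type} [∀ i, MulAction Γ (V i)]

/-- Nil modules. -/
structure Nm (T : ∀ i, SimpleGraph (V i)) {N : Type} [Group N] (π : N →* Γ) where
  M : Type
  ag : AddCommGroup M
  md : Module (ZM N) M
  pr : Pos V → M →+ M
  nu : D → Module.End (ZM N) M
  pr_self : ∀ x m, pr x (pr x m) = pr x m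
  pr_ne : ∀ x y m, x ≠ y → pr x (pr y m) = 0
  fin : ∀ m, {x | pr x m ≠ 0}.Finite
  sum : ∀ m, ∑ᶠ x, pr x m = m
  act : ∀ (g : N) x m, (MonoidAlgebra.single g (1 : ℤ) : ZM N) • pr x m =
    pr (π g • x) ((MonoidAlgebra.single g (1 : ℤ) : ZM N) • m)
  oe : ∀ x m, pr x m ≠ 0 → OE T x
  comm : ∀ i j m, nu i (nu j m) = nu j (nu i m)
  loc : ∀ i x y m, pr y (nu i (pr x m)) ≠ 0 → Nx T i x y
  nil : ∀ i, ∃ K : ℕ, nu i ^ K = 0

attribute [instance] Nm.ag Nm.md

/-- Restriction of scalars to a subgroup. -/
def Rg {N : Type} [Group N] (_S : Subgroup N) (M : Type) : Type := M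

instance {N : Type} [Group N] (S : Subgroup N) (M : Type) [h : AddCommGroup M] :
    AddCommGroup (Rg S M) := h

noncomputable instance rgModule {N : Type} [Group N] (S : Subgroup N) (M : Type) [AddCommGroup M]
    [Module (ZM N) M] : Module (ZM S) (Rg S M) := Module.compHom M (mdh S.subtype)

theorem rg_smul {N : Type} [Group N] (S : Subgroup N) (M : Type) [AddCommGroup M]
    [Module (ZM N) M] (a : ZM S) (x : Rg S M) :
    a • x = (show Rg S M from (mdh S.subtype a • (show M from x) : M)) := rfl

variable {T : ∀ i, SimpleGraph (V i)} {N : Type} [Group N] {π : N →* Γ}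

/-- The part at `x`, as a module over the group ring of the stabiliser of `x`. -/
noncomputable def Nm.part (A : Nm T π) (x : Pos V) : Submodule (ZM (St π x)) (Rg (St π x) A.M) where
  carrier := {m | A.pr x (show A.M from m) = (show A.M from m)}
  zero_mem' := map_zero (A.pr x)
  add_mem' {a b} ha hb := by
    change A.pr x (show A.M from a) = _ at ha
    change A.pr x (show A.M from b) = _ at hb
    change A.pr x ((show A.M from a) + (show A.M from b)) = _
    rw [map_add, ha, hb]
    rfl
  smul_mem' c m hm := by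
    change A.pr x (show A.M from m) = _ at hm
    change A.pr x (mdh (St π x).subtype c • (show A.M from m) : A.M)
      = (mdh (St π x).subtype c • (show A.M from m) : A.M)
    have h1 : (mdh (St π x).subtype c • (show A.M from m) : A.M) ∈
        ({ carrier := {m | A.pr x m = m}
           zero_mem' := map_zero (A.pr x)
           add_mem' := fun {a b} ha hb => by
             change A.pr x a = a at ha
             change A.pr x b = b at hb
             change A.pr x (a + b) = a + b
             rw [map_add, ha, hb]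
           neg_mem' := fun {a} ha => by
             change A.pr x a = a at ha
             change A.pr x (-a) = -a
             rw [map_neg, ha] } : AddSubgroup A.M) := by
      refine smul_mem_of_terms _ fun g hg => ?_
      obtain ⟨g', rfl, -⟩ := coeff_mdh_ne hg
      change A.pr x _ = _
      have h2 : π ((St π x).subtype g') • x = x := g'.2
      have h3 := A.act ((St π x).subtype g') x (show A.M from m)
      rw [h2, hm] at h3
      exact h3.symm
    exact h1

theorem Nm.mem_part (A : Nm T π) (x : Pos V) (m : A.M) :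
    (show Rg (St π x) A.M from m) ∈ A.part x ↔ A.pr x m = m := Iff.rfl

/-- `x` is a system of representatives of the orbits of the positions of `A`. -/
def Orb (A : Nm T π) {r : ℕ} (x : Fin r → Pos V) : Prop :=
  (∀ i j (g : N), π g • x i = x j → i = j) ∧ (∀ i, OE T (x i)) ∧
    ∀ y m, A.pr y m ≠ 0 → ∃ i, ∃ g : N, y = π g • x i

/-- Homomorphisms of nil modules. -/
structure NmHom (A B : Nm T π) where
  f : A.M →ₗ[ZM N] B.M
  pr : ∀ x m, f (A.pr x m) = B.pr x (f m)
  nu : ∀ i m, f (A.nu i m) = B.nu i (f m)

/-- All products of `k` operators kill `m`. -/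
def Kl (A : Nm T π) : ℕ → A.M → Prop
  | 0, m => m = 0
  | k + 1, m => ∀ i, Kl A k (A.nu i m)

/-- The operators are zero. -/
def Nm.Triv (A : Nm T π) : Prop := ∀ i m, A.nu i m = 0

/-- Short exact sequences. -/
def NEx {A B C : Nm T π} (i : NmHom A B) (q : NmHom B C) : Prop :=
  Function.Injective i.f ∧ Function.Surjective q.f ∧ ∀ m, q.f m = 0 ↔ ∃ a, i.f a = m

/-- The direct sum. -/
noncomputable def Nm.prod (A B : Nm T π) : Nm T π where
  M := A.M × B.M
  ag := inferInstance
  md := inferInstance
  pr x := (A.pr x).prodMap (B.pr x)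
  nu i := (A.nu i).prodMap (B.nu i)
  pr_self x m := Prod.ext (A.pr_self x m.1) (B.pr_self x m.2)
  pr_ne x y m h := Prod.ext (A.pr_ne x y m.1 h) (B.pr_ne x y m.2 h)
  fin m := by
    refine ((A.fin m.1).union (B.fin m.2)).subset fun x hx => ?_
    by_contra h
    rw [Set.mem_union, not_or] at h
    have h1 : A.pr x m.1 = 0 := not_not.1 h.1
    have h2 : B.pr x m.2 = 0 := not_not.1 h.2
    exact hx (Prod.ext h1 h2)
  sum m := by
    have hA : (Function.support fun x => A.pr x m.1).Finite := A.fin m.1
    have hB : (Function.support fun x => B.pr x m.2).Finite := B.fin m.2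
    have h1 : (Function.support fun x => ((A.pr x).prodMap (B.pr x)) m).Finite := by
      refine (hA.union hB).subset fun x hx => ?_
      by_contra h
      rw [Set.mem_union, not_or] at h
      exact hx (Prod.ext (not_not.1 h.1) (not_not.1 h.2))
    refine Prod.ext ?_ ?_
    · have h2 := (AddMonoidHom.fst A.M B.M).map_finsum h1
      exact h2.trans (A.sum m.1)
    · have h2 := (AddMonoidHom.snd A.M B.M).map_finsum h1
      exact h2.trans (B.sum m.2)
  act g x m := Prod.ext (A.act g x m.1) (B.act g x m.2)
  oe x m h := by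
    by_contra hn
    refine h (Prod.ext ?_ ?_)
    · by_contra h1
      exact hn (A.oe x m.1 h1)
    · by_contra h1
      exact hn (B.oe x m.2 h1)
  comm i j m := Prod.ext (A.comm i j m.1) (B.comm i j m.2)
  loc i x y m h := by
    by_contra hn
    refine h (Prod.ext ?_ ?_)
    · by_contra h1
      exact hn (A.loc i x y m.1 h1)
    · by_contra h1
      exact hn (B.loc i x y m.2 h1)
  nil i := by
    obtain ⟨K, hK⟩ := A.nil i
    obtain ⟨L, hL⟩ := B.nil i
    refine ⟨K + L, ?_⟩
    have h1 : ∀ n : ℕ, ((A.nu i).prodMap (B.nu i)) ^ n = (A.nu i ^ n).prodMap (B.nu i ^ n) := by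
      intro n
      induction n with
      | zero => rfl
      | succ n ih => rw [pow_succ, ih, pow_succ, pow_succ]; rfl
    rw [h1, pow_add, hK, zero_mul, pow_add, hL, mul_zero]
    rfl

end

/-! ## Free nil modules -/

section

variable {Γ : Type} [Group Γ] {D : Type} {V : D → Type} [∀ i, MulAction Γ (V i)]
  (T : ∀ i, SimpleGraph (V i)) {N : Type} [Group N] (π : N →* Γ) {ι : Type} [Fintype ι]
  [DecidableEq ι]

/-- The data of a free nil module. -/
structure FrOk (p : ι → Pos V) (ν : D → Matrix ι ι (ZM N)) : Prop where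
  oe : ∀ l, OE T (p l)
  comm : ∀ i j, ν i * ν j = ν j * ν i
  loc : ∀ i l k m, (ν i l k).coeff m ≠ 0 → Nx T i (p l) (π m • p k)
  nil : ∀ i, ∃ K : ℕ, ν i ^ K = 0

open Classical in
/-- The part of the vector `v` at `x`. -/
noncomputable def frPr (p : ι → Pos V) (x : Pos V) : (ι → ZM N) →+ (ι → ZM N) where
  toFun v := fun l => filt (fun m => π m • p l = x) (v l)
  map_zero' := by
    funext l
    apply MonoidAlgebra.coeff_injective
    exact Finsupp.filter_zero _
  map_add' v w := by
    funext l
    apply MonoidAlgebra.coeff_injective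
    exact Finsupp.filter_add

end

/-! ## The complex of a nil module -/

section

variable {D : Type} [LinearOrder D]

/-- The sign of the face `i` of `φ`. -/
def eps (n : ℤ) (i : D) (φ : Finset D) : ℤ := sgn (n + (φ.filter (· < i)).card)

end

section

variable {Γ : Type} [Group Γ] {D : Type} [LinearOrder D] {V : D → Type}
  [∀ i, MulAction Γ (V i)] {T : ∀ i, SimpleGraph (V i)} (h : ∀ i, TreeAct Γ (V i) (T i))

/-- The size of the face `φ` at `x`: the far end in the directions of `φ`, the edge in the other
directions. -/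
noncomputable def sx (x : Pos V) (φ : Finset D) : Sz (SP h) := fun i =>
  if i ∈ φ then vtx (h i) (x i).2 else edg (h i) (x i).1 (x i).2

/-- The complex of a free nil module. -/
noncomputable def Kc (N : Type) [Monoid N] (n : ℤ) {ι : Type} [Fintype ι] [DecidableEq ι]
    [Fintype D] (p : ι → Pos V) (ν : D → Matrix ι ι (ZM N)) : Co (SP h) N where
  ι := ι × Finset D
  ft := inferInstance
  de := inferInstance
  deg x := n + x.2.card
  sz x := sx h (p x.1) x.2
  d := fun a b => ∑ i ∈ a.2, if b.2 = a.2.erase i then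
    eps n i a.2 • ((if a.1 = b.1 then 1 else 0) - ν i a.1 b.1) else 0

/-- The complex of a free nil module with integral coefficients in the directions of `I`, with the
sizes `B` in the other directions. -/
noncomputable def Kp (N : Type) [Monoid N] (n : ℤ) {ι : Type} [Fintype ι] [DecidableEq ι]
    (I : Finset D) (B : Sz (SP h)) (p : ι → Pos V) (ν : D → Matrix ι ι ℤ) : Co (SP h) N where
  ι := ι × {φ : Finset D // φ ∈ I.powerset}
  ft := inferInstance
  de := inferInstance
  deg x := n + x.2.1.card
  sz x := fun i => if i ∈ I then sx h (p x.1) x.2.1 i else B i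
  d := fun a b => MonoidAlgebra.single 1 (∑ i ∈ a.2.1, if b.2.1 = a.2.1.erase i then
    eps n i a.2.1 * ((if a.1 = b.1 then 1 else 0) - ν i a.1 b.1) else 0)

variable (T)

/-- The data of a free nil module with integral coefficients in the directions of `I`. -/
structure FrI (I : Finset D) {ι : Type} [Fintype ι] [DecidableEq ι] (p : ι → Pos V)
    (ν : D → Matrix ι ι ℤ) : Prop where
  oe : ∀ l, ∀ i ∈ I, (T i).Adj (p l i).1 (p l i).2
  comm : ∀ i ∈ I, ∀ j ∈ I, ν i * ν j = ν j * ν i
  loc : ∀ i ∈ I, ∀ l k, ν i l k ≠ 0 → Nx T i (p l) (p k)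
  nil : ∀ i ∈ I, ∃ K : ℕ, ν i ^ K = 0

end

/-! ## The target of a nil module -/

section

variable {Γ : Type} [Group Γ] {D : Type} [Fintype D] [LinearOrder D] {V : D → Type}
  [∀ i, MulAction Γ (V i)] {T : ∀ i, SimpleGraph (V i)} (h : ∀ i, TreeAct Γ (V i) (T i))
  {N : Type} [Group N] {π : N →* Γ}

/-- The differential. -/
noncomputable def ktD (A : Nm T π) (n : ℤ) : (Finset D → A.M) →ₗ[ZM N] (Finset D → A.M) where
  toFun v := fun φ => ∑ i ∈ Finset.univ \ φ,
    eps n i φ • (v (insert i φ) - A.nu i (v (insert i φ)))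
  map_add' v w := by
    funext φ
    rw [Pi.add_apply, ← Finset.sum_add_distrib]
    refine Finset.sum_congr rfl fun i _ => ?_
    rw [Pi.add_apply, map_add, ← smul_add]
    congr 1
    abel
  map_smul' a v := by
    funext φ
    rw [RingHom.id_apply, Pi.smul_apply, Finset.smul_sum]
    refine Finset.sum_congr rfl fun i _ => ?_
    rw [Pi.smul_apply, map_smul, ← smul_sub, smul_comm]

/-- The family. -/
noncomputable def ktFam (A : Nm T π) (n : ℤ) (B : Sz (SP h)) (q : ℤ) :
    AddSubgroup (Finset D → A.M) where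
  carrier := {v | ∀ φ x, A.pr x (v φ) ≠ 0 → n + φ.card = q ∧ ∀ i, B i ≤ sx h x φ i}
  zero_mem' := fun φ x hx => absurd (map_zero (A.pr x)) hx
  add_mem' {v w} hv hw := by
    intro φ x hx
    by_cases h1 : A.pr x (v φ) = 0
    · refine hw φ x fun h2 => hx ?_
      rw [Pi.add_apply, map_add, h1, h2, add_zero]
    · exact hv φ x h1
  neg_mem' {v} hv := by
    intro φ x hx
    refine hv φ x fun h2 => hx ?_
    rw [Pi.neg_apply, map_neg, h2, neg_zero]

/-- Module KT. -/
def StKT : Prop :=
  ∀ (Γ : Type) [Group Γ] (D : Type) [Fintype D] [LinearOrder D] (V : D → Type)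
    [∀ i, MulAction Γ (V i)] (T : ∀ i, SimpleGraph (V i)) (h : ∀ i, TreeAct Γ (V i) (T i))
    (N : Type) [Group N] (π : N →* Γ) (A : Nm T π) (n : ℤ),
    (∀ v, ktD A n (ktD A n v) = 0) ∧
    (∀ B q, ∀ v ∈ ktFam h A n B q, ktD A n v ∈ ktFam h A n B (q - 1)) ∧
    (∀ (B B' : Sz (SP h)) q, (∀ i, B i ≤ B' i) → ktFam h A n B' q ≤ ktFam h A n B q) ∧
    ∀ (g : N) B q, ∀ v ∈ ktFam h A n B q,
      (MonoidAlgebra.single g (1 : ℤ) : ZM N) • v ∈ ktFam h A n (π g • B) q

end

end Pool.Agent.Lib.MP_551055_al.W17
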