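import Pool.Agent.Lib.MP_551055_al.W17.StK
import Pool.Agent.Lib.MP_551055_al.W17.FrPart

/-!
# Trees and products, module KAll: all retracts of acyclic complexes are in the class
-/

set_option autoImplicit false

namespace Pool.Agent.Lib.MP_551055_al.W17

open Pool.Agent.Lib.MP_551055_al
open Pool.Agent.Lib.MP_551055_al.LS (TreeAct ZN)
open Pool.Agent.Lib.MP_551055_al.MT
open Pool.Agent.Lib.MP_551055_al.T4 (Perf)
open Pool.Agent.Lib.MP_551055_al.T6 (LPS)
open Matrix

namespace KAll

section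

variable {Γ : Type} [Group Γ] {V : Type} [MulAction Γ V] {T : SimpleGraph V} (h : TreeAct Γ V T)

theorem not_isE_le_vtx {A : Sub h} (hA : IsE h A) (v : V) : ¬ A ≤ vtx h v := by
  obtain ⟨a, b, hab, rfl⟩ := hA
  intro hle
  obtain ⟨h1, h2⟩ := (edg_le h hab).1 hle
  have h3 : a = v := h1
  have h4 : b = v := h2
  rw [h3, h4] at hab
  exact hab.ne rfl

end

section

variable {Γ : Type} [Group Γ] {D : Type} {P : D → Type} [∀ i, PartialOrder (P i)]
  [∀ i, MulAction Γ (P i)] {N : Type} [Monoid N] {π : N →* Γ} {U : Finset D}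

/-- A bijection of targets is an isomorphism in homology. -/
theorem hIso_of_bij {S S' : Tg P π U} (κ : TgHom S S') (hκ : Function.Bijective κ.f)
    (hfam : ∀ B q, ∀ x : S.V, κ.f x ∈ S'.fam B q → x ∈ S.fam B q) : HIso κ := by
  intro q B
  constructor
  · rintro x - ⟨y, hy, hyx⟩
    obtain ⟨y', rfl⟩ := hκ.2 y
    refine ⟨y', hfam B _ y' hy, ?_⟩
    apply hκ.1
    rw [κ.d, hyx]
  · intro y hy
    obtain ⟨y', rfl⟩ := hκ.2 y
    refine ⟨y', ⟨hfam B q y' hy.1, ?_⟩, ?_⟩
    · apply hκ.1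
      rw [κ.d, hy.2, map_zero]
    · rw [sub_self]
      exact AddSubgroup.zero_mem _

/-- Vectors of the cone. -/
theorem fam_cone {X Y : Co P N} {f : Matrix X.ι Y.ι (ZM N)} {B : Sz P} {q : ℤ}
    {x : (cone X Y f).ι → ZM N} (hx : x ∈ fam π U (cone X Y f).toOb B q) :
    (fun l => x (Sum.inl l)) ∈ fam π U X.toOb B (q - 1) ∧
      (fun l => x (Sum.inr l)) ∈ fam π U Y.toOb B q := by
  refine ⟨fun l m hm => ?_, fun l m hm => hx (Sum.inr l) m hm⟩
  obtain ⟨h1, h2⟩ := hx (Sum.inl l) m hm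
  have h3 : X.deg l + 1 = q := h1
  exact ⟨by omega, h2⟩

/-- A vector is zero in the degrees in which there are no basis elements. -/
theorem fam_eq_zero {X : Ob P} {B : Sz P} {q : ℤ} (hq : ∀ l, X.deg l ≠ q) {x : X.ι → ZM N}
    (hx : x ∈ fam π U X B q) : x = 0 := by
  funext l
  refine zm_ext fun m => ?_
  by_contra hn
  exact hq l (hx l m hn).1

end

section

variable {Γ : Type} [Group Γ] {D : Type} [Fintype D] [LinearOrder D] {V : D → Type}
  [∀ i, MulAction Γ (V i)] {T : ∀ i, SimpleGraph (V i)} {h : ∀ i, TreeAct Γ (V i) (T i)}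
  {N : Type} [Group N] {π : N →* Γ}

/-- At the boxes of edges the complex of a free nil module has only the degree `n`. -/
theorem fam_Kc {ι : Type} [Fintype ι] [DecidableEq ι] (p : ι → Pos V)
    (ν : D → Matrix ι ι (ZM N)) (n : ℤ) {B : Sz (SP h)} (hB : ∀ i, IsE (h i) (B i)) {q : ℤ}
    (hq : q ≠ n) {x : (Kc h N n p ν).ι → ZM N}
    (hx : x ∈ fam π Finset.univ (Kc h N n p ν).toOb B q) : x = 0 := by
  funext a
  refine zm_ext fun m => ?_
  by_contra hn
  obtain ⟨h1, h2⟩ := hx a m hn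
  obtain ⟨l, φ⟩ := a
  have h3 : n + φ.card = q := h1
  have h4 : φ.Nonempty := by
    rw [Finset.nonempty_iff_ne_empty]
    intro h5
    rw [h5, Finset.card_empty] at h3
    apply hq
    omega
  obtain ⟨i, hi⟩ := h4
  have h6 := h2 i (Finset.mem_univ i)
  change B i ≤ π m • sx h (p l) φ i at h6
  rw [sx, if_pos hi, smul_vtx] at h6
  exact not_isE_le_vtx (h i) (hB i) _ h6

/-- Retracts are exact where there are no basis elements. -/
theorem exact_of_ret {S : Tg (SP h) π Finset.univ} {M : Co (SP h) N} {n₀ : ℤ}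
    (hR : RetT S M n₀) {q : ℤ} (hq : ∀ l, M.deg l ≠ q) (B : Sz (SP h)) :
    S.Zc q B ≤ S.Bc q B := by
  obtain ⟨u, v, r, -, hv, hr, -, -, huv, -⟩ := hR
  intro y hy
  have h1 : v y = 0 := fam_eq_zero (X := M.toOb) hq (hv B q y hy.1)
  have h2 := huv y
  rw [h1, hy.2, map_zero, map_zero, add_zero] at h2
  refine ⟨-(r y), (S.fam B (q + 1)).neg_mem (hr B q y hy.1), ?_⟩
  rw [map_neg]
  exact (eq_neg_of_add_eq_zero_left h2.symm).symm

end

end KAll

open KAll in
/-- Module KAll. -/
theorem stKAll (hKC : StKC) (hKF : StKF) (hKB : StKB) (hFG : StKFG) (hAtt : StKAtt)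
    (hRet : StKRet) (hLong : StKLong) (hIn : StKIn) (hKV : StKV) (hGam : StKGam) (hPJ : StKPJ) :
    StKAll := by
  intro Γ _ D _ _ V _ T h N _ π hP hL
  -- free nil modules
  have hInK : ∀ (ι : Type) [Fintype ι] [DecidableEq ι] (p : ι → Pos V)
      (ν : D → Matrix ι ι (ZM N)) (n : ℤ), FrOk T π p ν →
      ∀ hK : IsCx π Finset.univ (Kc h N n p ν), InC h π (Tg.ofCo (Kc h N n p ν) hK) := by
    intro ι _ _ p ν n hp hK
    obtain ⟨-, hκ⟩ := hKF Γ D V T h N π ι p ν hp n
    obtain ⟨κ, hbij, hfam, -⟩ := hκ hK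
    have h1 : HIso κ := hIso_of_bij κ hbij fun B q x hx => hfam B q x hx
    refine ((hKC Γ D V T h N π _ _ κ).1 h1).2 ?_
    obtain ⟨r, x, hx⟩ := exists_orb h hp
    exact hKB Γ D V T h N π ι p ν hp (Fr h hp)
      { f := LinearMap.id, pr := fun _ _ => rfl, nu := fun _ _ => rfl }
      (fun m hm i => by
        have h2 : m = 0 := hm
        rw [h2, map_zero]) r x hx (fun i => frPart_perf h hp (x i)) (fun i => hP _ (hx.2.1 i))
      (fun hne i => hL hne _ (hx.2.1 i)) n
  -- the induction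
  have claim : ∀ (k : ℕ) (n b : ℤ), b = n + k → ∀ (S : Tg (SP h) π Finset.univ)
      (M : Co (SP h) N) (n₀ : ℤ), Acy h π M → RetT S M n₀ →
      (∀ q, q < n → ∀ B, S.Zc q B ≤ S.Bc q B) → (∀ q, b < q → ∀ B, S.Zc q B ≤ S.Bc q B) →
      (∀ B : Sz (SP h), (∀ i, IsE (h i) (B i)) → ∀ q, b < q →
        ∀ x ∈ fam π Finset.univ M.toOb B q, x = 0) → InC h π S := by
    intro k
    induction k with
    | zero =>
      intro n b hb S M n₀ hM hR0 hlow hhigh hfam
      have hb' : b = n := by
        rw [hb]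
        exact add_zero n
      subst hb'
      have hR := hFG Γ D V T h N π S M hM.cx n₀ b hR0 hlow
      obtain ⟨ι, hι1, hι2, p, ν, g, hp, hg, hgen⟩ := hAtt Γ D V T h N π S M hM b hR
      obtain ⟨hAK, -⟩ := hKF Γ D V T h N π ι p ν hp b
      have hK := hAK.cx
      obtain ⟨w, hw, hA1, n₁, hR1⟩ := hRet Γ D V T h N π S M (Kc h N b p ν) b hM hR hAK hK g hg
      have hlong := hLong Γ D V T h N π S ι p ν b hp hK g hg hgen
      have hex : ∀ q, q ≠ b → ∀ B, S.Zc q B ≤ S.Bc q B := by
        intro q hq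
        rcases lt_or_gt_of_ne hq with h1 | h1
        · exact hlow q h1
        · exact hhigh q h1
      have hInF : ∀ i, InF i (S.Zc b) (S.Bc b) := fun i => hIn Γ D V T h N π S M b hM hR i b
      obtain ⟨B, j, hB⟩ := hKV Γ D V T h N π S ι p ν b hp g hg hInF
      have hR1' := hFG Γ D V T h N π _ _ hA1.cx n₁ (b + 1) hR1 fun q hq B' => by
        refine hlong q (by omega) ?_ B'
        by_cases h1 : q = b
        · exact Or.inl h1
        · exact Or.inr (hex q h1)
      obtain ⟨γ, hγ⟩ := hGam Γ D V T h N π S ι p ν b hp hK g hg hInF hgen hex _ hA1.cx hR1' B j hB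
      have hperf := hPJ Γ D V T h N π S ι p ν b hp hK g hg hInF hex _ hA1.cx hA1.cel hR1'
        (fun B' hB' q hq x hx => by
          obtain ⟨h1, h2⟩ := fam_cone hx
          have h3 := fam_Kc p ν b hB' (q := q - 1) (by omega) h1
          have h4 := hfam B' hB' q (by omega) _ h2
          funext a
          rcases a with a | a
          · exact congrFun h3 a
          · exact congrFun h4 a) B j hB
      obtain ⟨r, x, hx⟩ := exists_orb h hp
      have hxB := Orb.of_injective j hB.1 hx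
      have hInB : InC h π (KT h B (b + 1)) :=
        hKB Γ D V T h N π ι p ν hp B j (fun m hm i => by
          have h2 : m = 0 := hB.1 (by rw [hm, map_zero])
          rw [h2, map_zero]) r x hxB (fun i => hperf (x i) (hx.2.1 i))
          (fun i => hP _ (hx.2.1 i)) (fun hne i => hL hne _ (hx.2.1 i)) (b + 1)
      have hIn1 := ((hKC Γ D V T h N π _ _ γ).1 hγ).2 hInB
      exact (hKC Γ D V T h N π _ _ (homCh hK g hg)).2.2.1 (hInK ι p ν b hp hK) hIn1
    | succ k ih =>
      intro n b hb S M n₀ hM hR0 hlow hhigh hfam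
      have hb' : b = n + 1 + k := by
        rw [hb]
        push_cast
        ring
      have hR := hFG Γ D V T h N π S M hM.cx n₀ n hR0 hlow
      obtain ⟨ι, hι1, hι2, p, ν, g, hp, hg, hgen⟩ := hAtt Γ D V T h N π S M hM n hR
      obtain ⟨hAK, -⟩ := hKF Γ D V T h N π ι p ν hp n
      have hK := hAK.cx
      obtain ⟨w, hw, hA1, n₁, hR1⟩ := hRet Γ D V T h N π S M (Kc h N n p ν) n hM hR hAK hK g hg
      have hlong := hLong Γ D V T h N π S ι p ν n hp hK g hg hgen
      have hIn1 := ih (n + 1) b hb' _ _ n₁ hA1 hR1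
        (fun q hq B' => by
          refine hlong q (by omega) ?_ B'
          by_cases h1 : q = n
          · exact Or.inl h1
          · exact Or.inr (hlow q (by omega)))
        (fun q hq B' => hlong q (by omega) (Or.inr (hhigh q hq)) B')
        (fun B' hB' q hq x hx => by
          obtain ⟨h1, h2⟩ := fam_cone hx
          have h3 := fam_Kc p ν n hB' (q := q - 1) (by omega) h1
          have h4 := hfam B' hB' q hq _ h2
          funext a
          rcases a with a | a
          · exact congrFun h3 a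
          · exact congrFun h4 a)
      exact (hKC Γ D V T h N π _ _ (homCh hK g hg)).2.2.1 (hInK ι p ν n hp hK) hIn1
  -- the start
  intro S M n₀ hM hR
  obtain ⟨c, hc⟩ : ∃ c : ℕ, ∀ l, -(c : ℤ) ≤ M.deg l ∧ M.deg l ≤ c := by
    refine ⟨∑ l, (M.deg l).natAbs, fun l => ?_⟩
    have h1 : (M.deg l).natAbs ≤ ∑ l, (M.deg l).natAbs :=
      Finset.single_le_sum (f := fun l => (M.deg l).natAbs) (fun _ _ => Nat.zero_le _)
        (Finset.mem_univ l)
    omega
  refine claim (2 * c) (-(c : ℤ)) c (by push_cast; ring) S M n₀ hM hR ?_ ?_ ?_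
  · intro q hq B
    exact exact_of_ret hR (fun l hl => by have := (hc l).1; omega) B
  · intro q hq B
    exact exact_of_ret hR (fun l hl => by have := (hc l).2; omega) B
  · intro B _ q hq x hx
    exact fam_eq_zero (fun l hl => by have := (hc l).2; omega) hx

end Pool.Agent.Lib.MP_551055_al.W17
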