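import Pool.Agent.Lib.MP_551055_al.W17.StK
import Pool.Agent.Lib.MP_551055_al.MT.Lift
import Pool.Agent.Lib.MP_551055_al.MT.Solve
import Pool.Agent.Lib.MP_551055_al.MT.ConeH
import Pool.Agent.Lib.MP_551055_al.MT.L5

/-!
# Trees and products: module KC (the targets with an approximation in the class `Cls`)
-/

set_option autoImplicit false
set_option linter.unusedSectionVars false

namespace Pool.Agent.Lib.MP_551055_al.W17

open Pool.Agent.Lib.MP_551055_al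
open Pool.Agent.Lib.MP_551055_al.LS (TreeAct ZN)
open Pool.Agent.Lib.MP_551055_al.MT
open Matrix

/-! ## Linear maps -/

section

variable {N : Type} [Monoid N]

theorem lin_elim {κ κ' : Type} [Fintype κ] [Fintype κ'] {V : Type} [AddCommGroup V]
    [Module (ZM N) V] (a : κ → V) (b : κ' → V) (x : κ ⊕ κ' → ZM N) :
    lin (N := N) (Sum.elim a b) x = lin (N := N) a (x ∘ Sum.inl) + lin (N := N) b (x ∘ Sum.inr) :=
  Fintype.sum_sum_type _

theorem lin_sub' {κ : Type} [Fintype κ] {V : Type} [AddCommGroup V]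
    [Module (ZM N) V] (a b : κ → V) (x : κ → ZM N) :
    lin (N := N) (fun l => a l - b l) x = lin (N := N) a x - lin (N := N) b x := by
  rw [lin_apply, lin_apply, lin_apply, ← Finset.sum_sub_distrib]
  exact Finset.sum_congr rfl fun l _ => smul_sub _ _ _

theorem lin_add' {κ : Type} [Fintype κ] {V : Type} [AddCommGroup V]
    [Module (ZM N) V] (a b : κ → V) (x : κ → ZM N) :
    lin (N := N) (fun l => a l + b l) x = lin (N := N) a x + lin (N := N) b x := by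
  rw [lin_apply, lin_apply, lin_apply, ← Finset.sum_add_distrib]
  exact Finset.sum_congr rfl fun l _ => smul_add _ _ _

theorem lin_neg' {κ : Type} [Fintype κ] {V : Type} [AddCommGroup V]
    [Module (ZM N) V] (a : κ → V) (x : κ → ZM N) :
    lin (N := N) (fun l => -(a l)) x = -lin (N := N) a x := by
  rw [lin_apply, lin_apply, ← Finset.sum_neg_distrib]
  exact Finset.sum_congr rfl fun l _ => smul_neg _ _

theorem lin_zero' {κ : Type} [Fintype κ] {V : Type} [AddCommGroup V]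
    [Module (ZM N) V] (x : κ → ZM N) :
    lin (N := N) (fun _ : κ => (0 : V)) x = 0 := by
  rw [lin_apply]
  exact Finset.sum_eq_zero fun l _ => smul_zero _

theorem lin_map {κ : Type} [Fintype κ] {V V' : Type} [AddCommGroup V]
    [Module (ZM N) V] [AddCommGroup V'] [Module (ZM N) V'] (f : V →ₗ[ZM N] V') (a : κ → V)
    (x : κ → ZM N) : lin (N := N) (fun l => f (a l)) x = f (lin (N := N) a x) := by
  rw [lin_apply, lin_apply, map_sum]
  exact Finset.sum_congr rfl fun l _ => (map_smul _ _ _).symm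

theorem lin_pair' {κ : Type} [Fintype κ] {V V' : Type} [AddCommGroup V]
    [Module (ZM N) V] [AddCommGroup V'] [Module (ZM N) V'] (a : κ → V) (b : κ → V')
    (x : κ → ZM N) : lin (N := N) (V := V × V') (fun l => (a l, b l)) x =
      (lin (N := N) a x, lin (N := N) b x) := by
  rw [lin_apply]
  refine Prod.ext ?_ ?_
  · rw [Prod.fst_sum]
    rfl
  · rw [Prod.snd_sum]
    rfl

end

/-! ## The three cones -/

section

variable {Γ : Type} [Group Γ] {D : Type} {P : D → Type} [∀ i, PartialOrder (P i)]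
  [∀ i, MulAction Γ (P i)] [SzAct Γ P] {N : Type} [Monoid N] {π : N →* Γ} {U : Finset D}
  {S S' : Tg P π U} (γ : TgHom S S')

theorem TgHom.mem_Zc {q : ℤ} {B : Sz P} {x : S.V} (hx : x ∈ S.Zc q B) : γ.f x ∈ S'.Zc q B :=
  ⟨γ.mem B q x hx.1, by rw [← γ.d, hx.2, map_zero]⟩

theorem TgHom.mem_Bc {q : ℤ} {B : Sz P} {x : S.V} (hx : x ∈ S.Bc q B) : γ.f x ∈ S'.Bc q B := by
  obtain ⟨y, hy, rfl⟩ := hx
  exact ⟨γ.f y, γ.mem B _ y hy, (γ.d y).symm⟩

theorem mem_coneT {B : Sz P} {q : ℤ} {x : S.V} {t : S'.V} :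
    ((x, t) : (coneT γ).V) ∈ (coneT γ).fam B q ↔ x ∈ S.fam B (q - 1) ∧ t ∈ S'.fam B q := Iff.rfl

/-- The composition of a chain map with a map of targets. -/
theorem chT_comp {Q : Co P N} {g : Q.ι → S.V} (hg : ChT Q S g) :
    ChT Q S' fun l => γ.f (g l) := by
  refine ⟨fun l => γ.mem _ _ _ (hg.1 l), fun x => ?_⟩
  rw [lin_map, lin_map, hg.2, γ.d]

theorem hIso_exact {γ : TgHom S S'} (hγ : HIso γ) (q : ℤ) (B : Sz P) :
    (coneT γ).Zc q B ≤ (coneT γ).Bc q B := by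
  rintro ⟨x, t⟩ ⟨⟨hx, ht⟩, hd⟩
  change x ∈ S.fam B (q - 1) at hx
  change t ∈ S'.fam B q at ht
  have hd1 : -(S.d x) = 0 := congrArg Prod.fst hd
  have hd2 : γ.f x + S'.d t = 0 := congrArg Prod.snd hd
  have h1 : γ.f x ∈ S'.Bc (q - 1) B := by
    refine ⟨-t, ?_, ?_⟩
    · rw [sub_add_cancel]
      exact neg_mem ht
    · rw [map_neg]
      exact (eq_neg_of_add_eq_zero_left hd2).symm
  obtain ⟨y, hy, hyx⟩ := (hγ (q - 1) B).1 x ⟨hx, neg_eq_zero.1 hd1⟩ h1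
  rw [sub_add_cancel] at hy
  obtain ⟨z, hz, w, hw, hzw⟩ := (hγ q B).2 (t + γ.f y) ⟨add_mem ht (γ.mem B q y hy), by
    rw [map_add, ← γ.d, hyx, add_comm]
    exact hd2⟩
  refine ⟨(-y + z, -w), ⟨?_, (S'.fam B (q + 1)).neg_mem hw⟩, ?_⟩
  · change -y + z ∈ S.fam B (q + 1 - 1)
    rw [add_sub_cancel_right]
    exact add_mem (neg_mem hy) hz.1
  · refine Prod.ext ?_ ?_
    · change -(S.d (-y + z)) = x
      rw [map_add, map_neg, hz.2, hyx, add_zero, neg_neg]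
    · change γ.f (-y + z) + S'.d (-w) = t
      rw [map_add, map_neg, map_neg, hzw]
      abel

/-- The cone of approximations of `S` and `S'`. -/
theorem cone_two {Q Q' : Co P N} {g : Q.ι → S.V} {g' : Q'.ι → S'.V} (hQ : IsCx π U Q)
    (hQ' : IsCx π U Q') (hg : ChT Q S g) (hg' : ChT Q' S' g') (hI : ∀ q, InjT Q S g q)
    (hS : ∀ q, SurT Q S g q) (hI' : ∀ q, InjT Q' S' g' q) (hS' : ∀ q, SurT Q' S' g' q)
    {a : Matrix Q.ι Q'.ι (ZM N)} (ha : Ch π U Q Q' a) {s : Q.ι → S'.V}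
    (hs : ∀ l, s l ∈ S'.fam (Q.sz l) (Q.deg l + 1))
    (hh : ∀ x : Q.ι → ZM N, γ.f (lin (N := N) g x) - lin (N := N) g' (x ᵥ* a) =
      lin (N := N) s (x ᵥ* Q.d) + S'.d (lin (N := N) s x)) :
    ∃ φ : (cone Q Q' a).ι → (coneT γ).V, ChT (cone Q Q' a) (coneT γ) φ ∧
      (∀ q, InjT (cone Q Q' a) (coneT γ) φ q) ∧ ∀ q, SurT (cone Q Q' a) (coneT γ) φ q := by
  have hsm : ∀ {B : Sz P} {q : ℤ} {x : Q.ι → ZM N}, x ∈ fam π U Q.toOb B q →
      lin (N := N) s x ∈ S'.fam B (q + 1) := fun hx => S'.lin_mem hs hx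
  let φ : Q.ι ⊕ Q'.ι → S.V × S'.V := Sum.elim (fun l => (g l, -(s l))) (fun k => (0, g' k))
  have hφ : ∀ z : Q.ι ⊕ Q'.ι → ZM N, lin (N := N) (V := S.V × S'.V) φ z =
      (lin (N := N) g (z ∘ Sum.inl), lin (N := N) g' (z ∘ Sum.inr) -
        lin (N := N) s (z ∘ Sum.inl)) := by
    intro z
    rw [lin_elim, lin_pair', lin_pair', lin_neg', lin_zero']
    refine Prod.ext ?_ ?_
    · exact add_zero _
    · change -lin (N := N) s (z ∘ Sum.inl) + lin (N := N) g' (z ∘ Sum.inr) = _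
      rw [neg_add_eq_sub]
  refine ⟨φ, ⟨?_, ?_⟩, ?_, ?_⟩
  · rintro (l | k)
    · refine ⟨?_, (S'.fam _ _).neg_mem (hs l)⟩
      change g l ∈ S.fam (Q.sz l) (Q.deg l + 1 - 1)
      rw [add_sub_cancel_right]
      exact hg.1 l
    · exact ⟨zero_mem _, hg'.1 k⟩
  · intro z
    rw [vecMul_cone_d]
    change lin (N := N) (V := S.V × S'.V) φ _ = (coneT γ).d (lin (N := N) (V := S.V × S'.V) φ z)
    rw [hφ, hφ, coneT_d, Sum.elim_comp_inl, Sum.elim_comp_inr]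
    have h1 := hh (z ∘ Sum.inl)
    refine Prod.ext ?_ ?_
    · change lin (N := N) g (-((z ∘ Sum.inl) ᵥ* Q.d)) = -(S.d (lin (N := N) g (z ∘ Sum.inl)))
      rw [map_neg, hg.2]
    · change lin (N := N) g' ((z ∘ Sum.inl) ᵥ* a + (z ∘ Sum.inr) ᵥ* Q'.d) -
        lin (N := N) s (-((z ∘ Sum.inl) ᵥ* Q.d)) =
        γ.f (lin (N := N) g (z ∘ Sum.inl)) + S'.d (lin (N := N) g' (z ∘ Sum.inr) -
          lin (N := N) s (z ∘ Sum.inl))
      rw [map_add, map_neg, hg'.2, map_sub]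
      rw [sub_eq_iff_eq_add] at h1
      rw [h1]
      abel
  · intro q B z hz hb
    obtain ⟨⟨p, r⟩, ⟨hp, hr⟩, hpr⟩ := hb
    change p ∈ S.fam B (q + 1 - 1) at hp
    rw [add_sub_cancel_right] at hp
    change r ∈ S'.fam B (q + 1) at hr
    change (coneT γ).d (p, r) = lin (N := N) (V := S.V × S'.V) φ z at hpr
    rw [hφ, coneT_d] at hpr
    have e1 : -(S.d p) = lin (N := N) g (z ∘ Sum.inl) := congrArg Prod.fst hpr
    have e2 : γ.f p + S'.d r = lin (N := N) g' (z ∘ Sum.inr) - lin (N := N) s (z ∘ Sum.inl) :=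
      congrArg Prod.snd hpr
    obtain ⟨hz1, hz2⟩ := hz
    obtain ⟨hx, hy⟩ := mem_fam_cone.1 hz1
    rw [vecMul_cone_d] at hz2
    have e3 : (z ∘ Sum.inl) ᵥ* Q.d = 0 := neg_eq_zero.1 (congrArg (fun f => f ∘ Sum.inl) hz2)
    have e4 : (z ∘ Sum.inl) ᵥ* a + (z ∘ Sum.inr) ᵥ* Q'.d = 0 :=
      congrArg (fun f => f ∘ Sum.inr) hz2
    obtain ⟨y, hy1, hyz⟩ := hI (q - 1) B (z ∘ Sum.inl) ⟨hx, e3⟩
      ⟨-p, by rw [sub_add_cancel]; exact neg_mem hp, by rw [map_neg, e1]⟩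
    rw [sub_add_cancel] at hy1
    obtain ⟨x, hx1, w, hw, hxw⟩ := hS q B (lin (N := N) g y + p)
      ⟨add_mem (hg.mem hy1) hp, by rw [map_add, ← hg.2, hyz, ← e1, neg_add_cancel]⟩
    have hyx : (y - x) ᵥ* Q.d = z ∘ Sum.inl := by
      rw [Matrix.sub_vecMul, hx1.2, sub_zero, hyz]
    have hyxm : y - x ∈ fam π U Q.toOb B q := sub_mem hy1 hx1.1
    have e5 : γ.f p + γ.f (lin (N := N) g (y - x)) = -(S'.d (γ.f w)) := by
      rw [← γ.d, hxw, map_sub, map_sub, map_sub, map_add]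
      abel
    have e6 := hh (y - x)
    rw [hyx] at e6
    obtain ⟨η, hη, hηz⟩ := hI' q B ((z ∘ Sum.inr) + (y - x) ᵥ* a)
      ⟨add_mem hy (fam_vecMul' ha.1 hyxm (add_zero q)), by
        rw [Matrix.add_vecMul, Matrix.vecMul_vecMul, ← ha.2, ← Matrix.vecMul_vecMul, hyx,
          add_comm]
        exact e4⟩
      ⟨-γ.f w + r - lin (N := N) s (y - x), sub_mem (add_mem (neg_mem (γ.mem B _ w hw)) hr)
        (hsm hyxm), by
        rw [map_add, map_sub, map_add, map_neg, ← e5]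
        rw [eq_sub_iff_add_eq] at e2
        rw [sub_eq_iff_eq_add] at e6
        rw [← e2, e6]
        abel⟩
    refine ⟨Sum.elim (-(y - x)) η, ?_, ?_⟩
    · rw [mem_fam_cone, add_sub_cancel_right]
      exact ⟨neg_mem hyxm, hη⟩
    · rw [vecMul_cone_d, Sum.elim_comp_inl, Sum.elim_comp_inr, Matrix.neg_vecMul,
        Matrix.neg_vecMul, neg_neg, hyx, hηz]
      funext l
      rcases l with l | l
      · rfl
      · simp only [Sum.elim_inr, Pi.add_apply, Pi.neg_apply, Function.comp_apply]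
        abel
  · intro q B pr hpr
    obtain ⟨p, r⟩ := pr
    obtain ⟨⟨hp, hr⟩, hd⟩ := hpr
    change p ∈ S.fam B (q - 1) at hp
    change r ∈ S'.fam B q at hr
    have e1 : -(S.d p) = 0 := congrArg Prod.fst hd
    have e2 : γ.f p + S'.d r = 0 := congrArg Prod.snd hd
    obtain ⟨x, hx, w, hw, hxw⟩ := hS (q - 1) B p ⟨hp, neg_eq_zero.1 e1⟩
    rw [sub_add_cancel] at hw
    have e3 := hh x
    rw [hx.2, map_zero, zero_add] at e3
    have e4 : γ.f (lin (N := N) g x) = γ.f p + S'.d (γ.f w) := by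
      rw [← γ.d, hxw, map_sub]
      abel
    obtain ⟨y, hy, hyx⟩ := hI' (q - 1) B (x ᵥ* a) (ha.mem_ZC hx)
      ⟨-r + γ.f w - lin (N := N) s x, by
        rw [sub_add_cancel]
        have h1 := hsm hx.1
        rw [sub_add_cancel] at h1
        exact sub_mem (add_mem (neg_mem hr) (γ.mem B _ w hw)) h1, by
        rw [map_sub, map_add, map_neg, ← e3, e4]
        rw [add_eq_zero_iff_eq_neg] at e2
        rw [e2]
        abel⟩
    rw [sub_add_cancel] at hy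
    have hsx := hsm hx.1
    rw [sub_add_cancel] at hsx
    obtain ⟨x2, hx2, v, hv, hxv⟩ := hS' q B
      (lin (N := N) g' (-y) - lin (N := N) s x - r + γ.f w)
      ⟨add_mem (sub_mem (sub_mem (hg'.mem (neg_mem hy)) hsx) hr) (γ.mem B _ w hw), by
        rw [map_add, map_sub, map_sub, ← hg'.2, Matrix.neg_vecMul, hyx, map_neg]
        rw [sub_eq_iff_eq_add] at e3
        rw [add_eq_zero_iff_eq_neg] at e2
        rw [e4, e2] at e3
        have e5 : lin (N := N) g' (x ᵥ* a) = -(S'.d r) + S'.d (γ.f w) -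
            S'.d (lin (N := N) s x) := by
          rw [e3]
          abel
        rw [e5]
        abel⟩
    refine ⟨Sum.elim x (-y - x2), ⟨?_, ?_⟩, ?_⟩
    · rw [mem_fam_cone]
      exact ⟨hx.1, sub_mem (neg_mem hy) hx2.1⟩
    · rw [vecMul_cone_d, Sum.elim_comp_inl, Sum.elim_comp_inr, hx.2, neg_zero, Matrix.sub_vecMul,
        Matrix.neg_vecMul, hyx, hx2.2, sub_zero, add_neg_cancel]
      exact Sum.elim_zero_zero
    · refine ⟨(-w, -v), ⟨?_, (S'.fam B (q + 1)).neg_mem hv⟩, ?_⟩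
      · change -w ∈ S.fam B (q + 1 - 1)
        rw [add_sub_cancel_right]
        exact neg_mem hw
      · rw [coneT_d]
        change _ = lin (N := N) (V := S.V × S'.V) φ (Sum.elim x (-y - x2)) - (p, r)
        rw [hφ, Sum.elim_comp_inl, Sum.elim_comp_inr]
        refine Prod.ext ?_ ?_
        · change -(S.d (-w)) = lin (N := N) g x - p
          rw [map_neg, neg_neg, hxw]
        · change γ.f (-w) + S'.d (-v) = lin (N := N) g' (-y - x2) - lin (N := N) s x - r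
          rw [map_neg, map_neg, hxv, map_sub]
          abel

/-- An approximation of `S'`. -/
theorem cone_three {R Q : Co P N} {ρ₁ : R.ι → S.V} {ρ₂ : R.ι → S'.V} {g : Q.ι → S.V}
    (hR : IsCx π U R) (hQ : IsCx π U Q)
    (hρ : ChT R (coneT γ) fun l => (ρ₁ l, ρ₂ l)) (hg : ChT Q S g)
    (hIR : ∀ q, InjT R (coneT γ) (fun l => (ρ₁ l, ρ₂ l)) q)
    (hSR : ∀ q, SurT R (coneT γ) (fun l => (ρ₁ l, ρ₂ l)) q) (hI : ∀ q, InjT Q S g q)
    (hS : ∀ q, SurT Q S g q) {b : Matrix R.ι Q.ι (ZM N)} (hb : Ch π U R.us Q b)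
    {s : R.ι → S.V} (hs : ∀ l, s l ∈ S.fam (R.sz l) (R.deg l - 1 + 1))
    (hh : ∀ x : R.ι → ZM N, lin (N := N) ρ₁ x - lin (N := N) g (x ᵥ* b) =
      -lin (N := N) s (x ᵥ* R.d) + S.d (lin (N := N) s x)) :
    ∃ φ : (cone R.us Q b).ι → S'.V, ChT (cone R.us Q b) S' φ ∧
      (∀ q, InjT (cone R.us Q b) S' φ q) ∧ ∀ q, SurT (cone R.us Q b) S' φ q := by
  have hsm : ∀ {B : Sz P} {q : ℤ} {x : R.ι → ZM N}, x ∈ fam π U R.toOb B q →
      lin (N := N) s x ∈ S.fam B q := fun hx =>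
    S.lin_mem' (X := R.toOb) (r := 0) (fun l => by
      have h1 := hs l
      rwa [sub_add_cancel, ← add_zero (R.deg l)] at h1) hx (add_zero _)
  have hlr : ∀ x : R.ι → ZM N, lin (N := N) (V := (coneT γ).V) (fun l => (ρ₁ l, ρ₂ l)) x =
      ((lin (N := N) ρ₁ x, lin (N := N) ρ₂ x) : S.V × S'.V) := fun x => lin_pair' _ _ _
  have hr1 : ∀ x : R.ι → ZM N, lin (N := N) ρ₁ (x ᵥ* R.d) = -(S.d (lin (N := N) ρ₁ x)) := by
    intro x
    have h1 := hρ.2 x
    rw [hlr, hlr, coneT_d] at h1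
    exact congrArg Prod.fst h1
  have hr2 : ∀ x : R.ι → ZM N, lin (N := N) ρ₂ (x ᵥ* R.d) =
      γ.f (lin (N := N) ρ₁ x) + S'.d (lin (N := N) ρ₂ x) := by
    intro x
    have h1 := hρ.2 x
    rw [hlr, hlr, coneT_d] at h1
    exact congrArg Prod.snd h1
  have hρ1 : ∀ {B : Sz P} {q : ℤ} {x : R.ι → ZM N}, x ∈ fam π U R.toOb B q →
      lin (N := N) ρ₁ x ∈ S.fam B (q - 1) := fun hx => by
    have h1 := hρ.mem hx
    rw [hlr] at h1
    exact h1.1
  have hρ2 : ∀ {B : Sz P} {q : ℤ} {x : R.ι → ZM N}, x ∈ fam π U R.toOb B q →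
      lin (N := N) ρ₂ x ∈ S'.fam B q := fun hx => by
    have h1 := hρ.mem hx
    rw [hlr] at h1
    exact h1.2
  have hmem : ∀ {B : Sz P} {q : ℤ} {z : R.ι ⊕ Q.ι → ZM N},
      z ∈ fam π U (cone R.us Q b).toOb B q ↔ (z ∘ Sum.inl) ∈ fam π U R.toOb B q ∧
        (z ∘ Sum.inr) ∈ fam π U Q.toOb B q := by
    intro B q z
    rw [mem_fam_cone, l5_mem_us, sub_add_cancel]
  have hd : ∀ z : R.ι ⊕ Q.ι → ZM N, z ᵥ* (cone R.us Q b).d = Sum.elim ((z ∘ Sum.inl) ᵥ* R.d)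
      ((z ∘ Sum.inl) ᵥ* b + (z ∘ Sum.inr) ᵥ* Q.d) := by
    intro z
    refine (vecMul_cone_d (M := R.us) b z).trans ?_
    change Sum.elim (-((z ∘ Sum.inl) ᵥ* (-R.d))) _ = _
    rw [Matrix.vecMul_neg, neg_neg]
  let φ : R.ι ⊕ Q.ι → S'.V := Sum.elim (fun l => ρ₂ l + γ.f (s l)) (fun k => -γ.f (g k))
  have hφ : ∀ z : R.ι ⊕ Q.ι → ZM N, lin (N := N) φ z =
      lin (N := N) ρ₂ (z ∘ Sum.inl) + γ.f (lin (N := N) s (z ∘ Sum.inl)) -
        γ.f (lin (N := N) g (z ∘ Sum.inr)) := by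
    intro z
    rw [lin_elim, lin_add', lin_neg', lin_map, lin_map, sub_eq_add_neg]
  refine ⟨φ, ⟨?_, ?_⟩, ?_, ?_⟩
  · rintro (l | k)
    · change ρ₂ l + γ.f (s l) ∈ S'.fam (R.sz l) (R.deg l - 1 + 1)
      refine add_mem ?_ (γ.mem _ _ _ (hs l))
      rw [sub_add_cancel]
      exact (hρ.1 l).2
    · exact neg_mem (γ.mem _ _ _ (hg.1 k))
  · intro z
    rw [hd]
    change lin (N := N) φ _ = S'.d (lin (N := N) φ z)
    rw [hφ, hφ, Sum.elim_comp_inl, Sum.elim_comp_inr, hr2]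
    have h1 := hh (z ∘ Sum.inl)
    rw [sub_eq_iff_eq_add] at h1
    rw [h1]
    simp only [map_add, map_sub, map_neg, hg.2, γ.d]
    abel
  · intro q B z hz hbb
    obtain ⟨t, ht, htz⟩ := hbb
    change S'.d t = lin (N := N) φ z at htz
    rw [hφ] at htz
    obtain ⟨hz1, hz2⟩ := hz
    obtain ⟨hx, hy⟩ := hmem.1 hz1
    rw [hd] at hz2
    have e3 : (z ∘ Sum.inl) ᵥ* R.d = 0 := congrArg (fun f => f ∘ Sum.inl) hz2
    have e4 : (z ∘ Sum.inl) ᵥ* b + (z ∘ Sum.inr) ᵥ* Q.d = 0 :=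
      congrArg (fun f => f ∘ Sum.inr) hz2
    have e5 := hh (z ∘ Sum.inl)
    rw [e3, map_zero, neg_zero, zero_add] at e5
    -- the image of `z ∘ inl` is a boundary
    obtain ⟨y, hy1, hyz⟩ := hIR q B (z ∘ Sum.inl) ⟨hx, e3⟩
      ⟨(lin (N := N) g (z ∘ Sum.inr) - lin (N := N) s (z ∘ Sum.inl), t), ⟨by
        change _ ∈ S.fam B (q + 1 - 1)
        rw [add_sub_cancel_right]
        exact sub_mem (hg.mem hy) (hsm hx), ht⟩, by
        rw [hlr, coneT_d]
        refine Prod.ext ?_ ?_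
        · change -(S.d (lin (N := N) g (z ∘ Sum.inr) - lin (N := N) s (z ∘ Sum.inl))) =
            lin (N := N) ρ₁ (z ∘ Sum.inl)
          rw [map_sub, ← hg.2, ← neg_eq_of_add_eq_zero_right e4, map_neg]
          rw [sub_eq_iff_eq_add] at e5
          rw [e5]
          abel
        · change γ.f (lin (N := N) g (z ∘ Sum.inr) - lin (N := N) s (z ∘ Sum.inl)) + S'.d t =
            lin (N := N) ρ₂ (z ∘ Sum.inl)
          rw [htz, map_sub]
          abel⟩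
    -- `(0, x')`
    set x' : Q.ι → ZM N := (z ∘ Sum.inr) - y ᵥ* b with hx'
    have hbd : b * Q.d = -R.d * b := hb.2.symm
    have hx'm : x' ∈ fam π U Q.toOb B q := by
      refine sub_mem hy ?_
      have h1 : y ∈ fam π U R.us.toOb B q := by
        rw [l5_mem_us]
        exact hy1
      exact fam_vecMul' hb.1 h1 (add_zero q)
    have hx'd : x' ᵥ* Q.d = 0 := by
      rw [hx', Matrix.sub_vecMul, Matrix.vecMul_vecMul, hbd, ← Matrix.vecMul_vecMul,
        Matrix.vecMul_neg, Matrix.neg_vecMul, hyz, sub_neg_eq_add, add_comm]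
      exact e4
    have e6 := hh y
    rw [hyz] at e6
    have e7 : γ.f (lin (N := N) g x') = -(S'.d (t - lin (N := N) ρ₂ y - γ.f (lin (N := N) s y))) := by
      have h1 := hr2 y
      rw [hyz] at h1
      rw [sub_eq_iff_eq_add] at e6
      rw [hx', map_sub, map_sub, map_sub, map_sub, htz, h1, e6, map_add, map_add, map_neg, ← γ.d]
      abel
    obtain ⟨ρ', hρ', ⟨u1, u2⟩, ⟨hu1, hu2⟩, hu⟩ := hSR (q + 1) B
      (lin (N := N) g x', t - lin (N := N) ρ₂ y - γ.f (lin (N := N) s y)) ⟨⟨by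
        change _ ∈ S.fam B (q + 1 - 1)
        rw [add_sub_cancel_right]
        exact hg.mem hx'm, (S'.fam B (q + 1)).sub_mem (sub_mem ht (hρ2 hy1)) (γ.mem _ _ _ (hsm hy1))⟩, by
        rw [coneT_d]
        refine Prod.ext ?_ ?_
        · change -(S.d (lin (N := N) g x')) = 0
          rw [← hg.2, hx'd, map_zero, neg_zero]
        · change γ.f (lin (N := N) g x') + _ = 0
          rw [e7, neg_add_cancel]⟩
    rw [hlr, coneT_d] at hu
    have e8 : -(S.d u1) = lin (N := N) ρ₁ ρ' - lin (N := N) g x' := congrArg Prod.fst hu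
    have e9 := hh ρ'
    rw [hρ'.2, map_zero, neg_zero, zero_add] at e9
    change u1 ∈ S.fam B (q + 1 + 1 - 1) at hu1
    rw [add_sub_cancel_right] at hu1
    have hρ'us : ρ' ᵥ* b ∈ fam π U Q.toOb B q := by
      have h1 : ρ' ∈ fam π U R.us.toOb B q := by
        rw [l5_mem_us]
        exact hρ'.1
      exact fam_vecMul' hb.1 h1 (add_zero q)
    obtain ⟨ζ, hζ, hζx⟩ := hI q B (x' - ρ' ᵥ* b) ⟨sub_mem hx'm hρ'us, by
        rw [Matrix.sub_vecMul, hx'd, Matrix.vecMul_vecMul, hbd, ← Matrix.vecMul_vecMul,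
          Matrix.vecMul_neg, hρ'.2, neg_zero, Matrix.zero_vecMul, sub_zero]⟩
      ⟨u1 + lin (N := N) s ρ', add_mem hu1 (hsm hρ'.1), by
        rw [map_add, ← e9, map_sub]
        rw [eq_sub_iff_add_eq] at e8
        rw [← e8]
        abel⟩
    refine ⟨Sum.elim (y + ρ') ζ, ?_, ?_⟩
    · rw [hmem]
      exact ⟨add_mem hy1 hρ'.1, hζ⟩
    · rw [hd, Sum.elim_comp_inl, Sum.elim_comp_inr, Matrix.add_vecMul, hyz, hρ'.2, add_zero, hζx,
        Matrix.add_vecMul]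
      funext l
      rcases l with l | l
      · rfl
      · simp only [Sum.elim_inr, Pi.add_apply, Pi.sub_apply, Function.comp_apply, hx']
        abel
  · intro q B t ht
    obtain ⟨ρ', hρ', ⟨u1, u2⟩, ⟨hu1, hu2⟩, hu⟩ := hSR q B (0, t) ⟨⟨zero_mem _, ht.1⟩, by
      rw [coneT_d]
      refine Prod.ext ?_ ?_
      · change -(S.d 0) = 0
        rw [map_zero, neg_zero]
      · change γ.f 0 + S'.d t = 0
        rw [map_zero, ht.2, add_zero]⟩
    rw [hlr, coneT_d] at hu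
    have e1 : -(S.d u1) = lin (N := N) ρ₁ ρ' - 0 := congrArg Prod.fst hu
    have e2 : γ.f u1 + S'.d u2 = lin (N := N) ρ₂ ρ' - t := congrArg Prod.snd hu
    rw [sub_zero] at e1
    change u1 ∈ S.fam B (q + 1 - 1) at hu1
    rw [add_sub_cancel_right] at hu1
    have e3 := hh ρ'
    rw [hρ'.2, map_zero, neg_zero, zero_add] at e3
    have hbd : b * Q.d = -R.d * b := hb.2.symm
    obtain ⟨x, hx, hxρ⟩ := hI (q - 1) B (ρ' ᵥ* b) ⟨by
        have h1 : ρ' ∈ fam π U R.us.toOb B (q - 1) := by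
          rw [l5_mem_us, sub_add_cancel]
          exact hρ'.1
        exact fam_vecMul' hb.1 h1 (add_zero _), by
        rw [Matrix.vecMul_vecMul, hbd, ← Matrix.vecMul_vecMul,
          Matrix.vecMul_neg, hρ'.2, neg_zero, Matrix.zero_vecMul]⟩
      ⟨-u1 - lin (N := N) s ρ', by
        rw [sub_add_cancel]
        exact sub_mem (neg_mem hu1) (hsm hρ'.1), by
        rw [map_sub, map_neg, e1, ← e3]
        abel⟩
    rw [sub_add_cancel] at hx
    obtain ⟨x2, hx2, w, hw, hw2⟩ := hS q B (lin (N := N) g (-x) - lin (N := N) s ρ' - u1)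
      ⟨sub_mem (sub_mem (hg.mem (neg_mem hx)) (hsm hρ'.1)) hu1, by
        rw [map_sub, map_sub, ← hg.2, Matrix.neg_vecMul, hxρ, map_neg, ← e3]
        rw [neg_eq_iff_eq_neg] at e1
        rw [e1]
        abel⟩
    refine ⟨Sum.elim ρ' (-x - x2), ⟨?_, ?_⟩, u2 + γ.f w, add_mem hu2 (γ.mem _ _ _ hw), ?_⟩
    · rw [hmem]
      exact ⟨hρ'.1, sub_mem (neg_mem hx) hx2.1⟩
    · rw [hd, Sum.elim_comp_inl, Sum.elim_comp_inr, hρ'.2, Matrix.sub_vecMul, Matrix.neg_vecMul,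
        hxρ, hx2.2, sub_zero, add_neg_cancel]
      exact Sum.elim_zero_zero
    · change _ = lin (N := N) φ (Sum.elim ρ' (-x - x2)) - t
      rw [hφ, Sum.elim_comp_inl, Sum.elim_comp_inr, map_add, ← γ.d, hw2]
      rw [eq_sub_iff_add_eq] at e2
      rw [← e2]
      simp only [map_sub, map_neg]
      abel

/-- An approximation of `S`. -/
theorem cone_four {R Q' : Co P N} {ρ₁ : R.ι → S.V} {ρ₂ : R.ι → S'.V} {g' : Q'.ι → S'.V}
    (hR : IsCx π U R) (hQ' : IsCx π U Q')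
    (hρ : ChT R (coneT γ) fun l => (ρ₁ l, ρ₂ l)) (hg' : ChT Q' S' g')
    (hIR : ∀ q, InjT R (coneT γ) (fun l => (ρ₁ l, ρ₂ l)) q)
    (hSR : ∀ q, SurT R (coneT γ) (fun l => (ρ₁ l, ρ₂ l)) q) (hI' : ∀ q, InjT Q' S' g' q)
    (hS' : ∀ q, SurT Q' S' g' q) {a : Matrix Q'.ι R.ι (ZM N)} (ha : Ch π U Q' R a)
    {σ₁ : Q'.ι → S.V} {σ₂ : Q'.ι → S'.V} (hσ₁ : ∀ l, σ₁ l ∈ S.fam (Q'.sz l) (Q'.deg l))
    (hσ₂ : ∀ l, σ₂ l ∈ S'.fam (Q'.sz l) (Q'.deg l + 1))
    (hh₁ : ∀ x : Q'.ι → ZM N, -lin (N := N) ρ₁ (x ᵥ* a) =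
      lin (N := N) σ₁ (x ᵥ* Q'.d) - S.d (lin (N := N) σ₁ x))
    (hh₂ : ∀ x : Q'.ι → ZM N, lin (N := N) g' x - lin (N := N) ρ₂ (x ᵥ* a) =
      lin (N := N) σ₂ (x ᵥ* Q'.d) + (γ.f (lin (N := N) σ₁ x) + S'.d (lin (N := N) σ₂ x))) :
    ∃ φ : (cone Q' R a).us.ι → S.V, ChT (cone Q' R a).us S φ ∧
      (∀ q, InjT (cone Q' R a).us S φ q) ∧ ∀ q, SurT (cone Q' R a).us S φ q := by
  have hsm1 : ∀ {B : Sz P} {q : ℤ} {x : Q'.ι → ZM N}, x ∈ fam π U Q'.toOb B q →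
      lin (N := N) σ₁ x ∈ S.fam B q := fun hx =>
    S.lin_mem' (X := Q'.toOb) (r := 0) (fun l => by rw [add_zero]; exact hσ₁ l) hx (add_zero _)
  have hsm2 : ∀ {B : Sz P} {q : ℤ} {x : Q'.ι → ZM N}, x ∈ fam π U Q'.toOb B q →
      lin (N := N) σ₂ x ∈ S'.fam B (q + 1) := fun hx => S'.lin_mem hσ₂ hx
  have hlr : ∀ x : R.ι → ZM N, lin (N := N) (V := (coneT γ).V) (fun l => (ρ₁ l, ρ₂ l)) x =
      ((lin (N := N) ρ₁ x, lin (N := N) ρ₂ x) : S.V × S'.V) := fun x => lin_pair' _ _ _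
  have hr1 : ∀ x : R.ι → ZM N, lin (N := N) ρ₁ (x ᵥ* R.d) = -(S.d (lin (N := N) ρ₁ x)) := by
    intro x
    have h1 := hρ.2 x
    rw [hlr, hlr, coneT_d] at h1
    exact congrArg Prod.fst h1
  have hr2 : ∀ x : R.ι → ZM N, lin (N := N) ρ₂ (x ᵥ* R.d) =
      γ.f (lin (N := N) ρ₁ x) + S'.d (lin (N := N) ρ₂ x) := by
    intro x
    have h1 := hρ.2 x
    rw [hlr, hlr, coneT_d] at h1
    exact congrArg Prod.snd h1
  have hρ1 : ∀ {B : Sz P} {q : ℤ} {x : R.ι → ZM N}, x ∈ fam π U R.toOb B q →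
      lin (N := N) ρ₁ x ∈ S.fam B (q - 1) := fun hx => by
    have h1 := hρ.mem hx
    rw [hlr] at h1
    exact h1.1
  have hρ2 : ∀ {B : Sz P} {q : ℤ} {x : R.ι → ZM N}, x ∈ fam π U R.toOb B q →
      lin (N := N) ρ₂ x ∈ S'.fam B q := fun hx => by
    have h1 := hρ.mem hx
    rw [hlr] at h1
    exact h1.2
  have hmem : ∀ {B : Sz P} {q : ℤ} {z : Q'.ι ⊕ R.ι → ZM N},
      z ∈ fam π U (cone Q' R a).us.toOb B q ↔ (z ∘ Sum.inl) ∈ fam π U Q'.toOb B q ∧
        (z ∘ Sum.inr) ∈ fam π U R.toOb B (q + 1) := by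
    intro B q z
    rw [l5_mem_us, mem_fam_cone, add_sub_cancel_right]
  have hd : ∀ z : Q'.ι ⊕ R.ι → ZM N, z ᵥ* (cone Q' R a).us.d =
      Sum.elim ((z ∘ Sum.inl) ᵥ* Q'.d)
      (-((z ∘ Sum.inl) ᵥ* a) - (z ∘ Sum.inr) ᵥ* R.d) := by
    intro z
    change z ᵥ* (-(cone Q' R a).d) = _
    rw [Matrix.vecMul_neg, vecMul_cone_d]
    funext l
    rcases l with l | l
    · exact neg_neg _
    · change -(((z ∘ Sum.inl) ᵥ* a + (z ∘ Sum.inr) ᵥ* R.d) l) =
        (-((z ∘ Sum.inl) ᵥ* a) - (z ∘ Sum.inr) ᵥ* R.d) l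
      rw [Pi.add_apply, Pi.sub_apply, Pi.neg_apply]
      abel
  let φ : Q'.ι ⊕ R.ι → S.V := Sum.elim (fun l => -(σ₁ l)) ρ₁
  have hφ : ∀ z : Q'.ι ⊕ R.ι → ZM N, lin (N := N) φ z =
      lin (N := N) ρ₁ (z ∘ Sum.inr) - lin (N := N) σ₁ (z ∘ Sum.inl) := by
    intro z
    rw [lin_elim, lin_neg', neg_add_eq_sub]
  refine ⟨φ, ⟨?_, ?_⟩, ?_, ?_⟩
  · rintro (l | k)
    · change -(σ₁ l) ∈ S.fam (Q'.sz l) (Q'.deg l + 1 - 1)
      rw [add_sub_cancel_right]
      exact neg_mem (hσ₁ l)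
    · exact (hρ.1 k).1
  · intro z
    rw [hd]
    change lin (N := N) φ _ = S.d (lin (N := N) φ z)
    rw [hφ, hφ, Sum.elim_comp_inl, Sum.elim_comp_inr, map_sub, map_sub, map_neg, hr1, hh₁]
    abel
  · intro q B z hz hbb
    obtain ⟨u, hu, huz⟩ := hbb
    change S.d u = lin (N := N) φ z at huz
    rw [hφ] at huz
    obtain ⟨hz1, hz2⟩ := hz
    obtain ⟨hy, hx⟩ := hmem.1 hz1
    rw [hd] at hz2
    have e3 : (z ∘ Sum.inl) ᵥ* Q'.d = 0 := congrArg (fun f => f ∘ Sum.inl) hz2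
    have e4 : -((z ∘ Sum.inl) ᵥ* a) - (z ∘ Sum.inr) ᵥ* R.d = 0 :=
      congrArg (fun f => f ∘ Sum.inr) hz2
    have e5 : (z ∘ Sum.inl) ᵥ* a = -((z ∘ Sum.inr) ᵥ* R.d) := by
      rw [sub_eq_zero] at e4
      rw [← e4, neg_neg]
    have e6 := hh₂ (z ∘ Sum.inl)
    rw [e3, map_zero, zero_add, e5, map_neg, hr2, sub_neg_eq_add] at e6
    obtain ⟨η, hη, hηz⟩ := hI' q B (z ∘ Sum.inl) ⟨hy, e3⟩
      ⟨-γ.f u + lin (N := N) σ₂ (z ∘ Sum.inl) - lin (N := N) ρ₂ (z ∘ Sum.inr),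
        sub_mem (add_mem (neg_mem (γ.mem _ _ _ hu)) (hsm2 hy)) (hρ2 hx), by
        rw [map_sub, map_add, map_neg, ← γ.d, huz, map_sub]
        rw [← eq_sub_iff_add_eq] at e6
        rw [e6]
        abel⟩
    set x' : R.ι → ZM N := (z ∘ Sum.inr) + η ᵥ* a with hx'
    have hηa : η ᵥ* a ∈ fam π U R.toOb B (q + 1) := fam_vecMul' ha.1 hη (add_zero _)
    have hx'm : x' ∈ fam π U R.toOb B (q + 1) := add_mem hx hηa
    have hx'd : x' ᵥ* R.d = 0 := by
      rw [hx', Matrix.add_vecMul, Matrix.vecMul_vecMul, ← ha.2, ← Matrix.vecMul_vecMul, hηz, e5,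
        add_neg_cancel]
    have e7 := hh₁ η
    rw [hηz] at e7
    have e8 : lin (N := N) ρ₁ x' = S.d (u + lin (N := N) σ₁ η) := by
      rw [hx', map_add, map_add, huz]
      rw [neg_eq_iff_eq_neg] at e7
      rw [e7]
      abel
    obtain ⟨y', hy', v, hv, hyv⟩ := hS' (q + 1) B
      (lin (N := N) ρ₂ x' + γ.f (u + lin (N := N) σ₁ η))
      ⟨add_mem (hρ2 hx'm) (γ.mem _ _ _ (add_mem hu (hsm1 hη))), by
        have h1 := hr2 x'
        rw [hx'd, map_zero, e8, γ.d] at h1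
        rw [map_add, add_comm]
        exact h1.symm⟩
    have e9 := hh₁ y'
    rw [hy'.2, map_zero, zero_sub, neg_inj] at e9
    have e10 := hh₂ y'
    rw [hy'.2, map_zero, zero_add] at e10
    obtain ⟨ζ, hζ, hζx⟩ := hIR (q + 1) B (x' - y' ᵥ* a)
      ⟨sub_mem hx'm (fam_vecMul' ha.1 hy'.1 (add_zero _)), by
        rw [Matrix.sub_vecMul, hx'd, Matrix.vecMul_vecMul, ← ha.2, ← Matrix.vecMul_vecMul, hy'.2,
          Matrix.zero_vecMul, sub_zero]⟩
      ⟨(-(u + lin (N := N) σ₁ η) + lin (N := N) σ₁ y', lin (N := N) σ₂ y' - v), ⟨by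
          change _ ∈ S.fam B (q + 1 + 1 - 1)
          rw [add_sub_cancel_right]
          exact add_mem (neg_mem (add_mem hu (hsm1 hη))) (hsm1 hy'.1),
          (S'.fam B (q + 1 + 1)).sub_mem (hsm2 hy'.1) hv⟩, by
        rw [hlr, coneT_d]
        refine Prod.ext ?_ ?_
        · change -(S.d (-(u + lin (N := N) σ₁ η) + lin (N := N) σ₁ y')) =
            lin (N := N) ρ₁ (x' - y' ᵥ* a)
          rw [map_sub, e8, e9, map_add, map_neg]
          abel
        · change γ.f (-(u + lin (N := N) σ₁ η) + lin (N := N) σ₁ y') +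
            S'.d (lin (N := N) σ₂ y' - v) = lin (N := N) ρ₂ (x' - y' ᵥ* a)
          rw [map_sub S'.d, hyv, map_sub]
          rw [sub_eq_iff_eq_add] at e10
          rw [e10, map_add γ.f (-(u + lin (N := N) σ₁ η)), map_neg]
          abel⟩
    refine ⟨Sum.elim (η - y') (-ζ), ?_, ?_⟩
    · rw [hmem]
      exact ⟨sub_mem hη hy'.1, neg_mem hζ⟩
    · rw [hd, Sum.elim_comp_inl, Sum.elim_comp_inr, Matrix.sub_vecMul, hηz, hy'.2, sub_zero,
        Matrix.sub_vecMul, Matrix.neg_vecMul, hζx]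
      funext l
      rcases l with l | l
      · rfl
      · simp only [Sum.elim_inr, Pi.add_apply, Pi.sub_apply, Pi.neg_apply, Function.comp_apply,
          hx']
        abel
  · intro q B p hp
    obtain ⟨y, hy, t, ht, hyt⟩ := hS' q B (γ.f p) (γ.mem_Zc hp)
    have e1 := hh₁ y
    rw [hy.2, map_zero, zero_sub, neg_inj] at e1
    have e2 := hh₂ y
    rw [hy.2, map_zero, zero_add] at e2
    -- `r (y a)` is a boundary
    obtain ⟨ρ, hρ0, hρy⟩ := hIR q B (y ᵥ* a) (ha.mem_ZC hy)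
      ⟨(p - lin (N := N) σ₁ y, t - lin (N := N) σ₂ y), ⟨by
          change _ ∈ S.fam B (q + 1 - 1)
          rw [add_sub_cancel_right]
          exact sub_mem hp.1 (hsm1 hy.1), (S'.fam B (q + 1)).sub_mem ht (hsm2 hy.1)⟩, by
        rw [hlr, coneT_d]
        refine Prod.ext ?_ ?_
        · change -(S.d (p - lin (N := N) σ₁ y)) = lin (N := N) ρ₁ (y ᵥ* a)
          rw [map_sub, hp.2, zero_sub, neg_neg, e1]
        · change γ.f (p - lin (N := N) σ₁ y) + S'.d (t - lin (N := N) σ₂ y) =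
            lin (N := N) ρ₂ (y ᵥ* a)
          rw [map_sub, map_sub, hyt]
          rw [sub_eq_iff_eq_add] at e2
          rw [e2]
          abel⟩
    obtain ⟨ρ', hρ', ⟨u1, u2⟩, ⟨hu1, hu2⟩, hu⟩ := hSR (q + 1) B
      ((p - lin (N := N) σ₁ y, t - lin (N := N) σ₂ y) -
        (lin (N := N) ρ₁ ρ, lin (N := N) ρ₂ ρ)) ⟨⟨by
          change p - lin (N := N) σ₁ y - lin (N := N) ρ₁ ρ ∈ S.fam B (q + 1 - 1)
          have h1 := hρ1 hρ0
          rw [add_sub_cancel_right] at h1 ⊢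
          exact sub_mem (sub_mem hp.1 (hsm1 hy.1)) h1, by
          change t - lin (N := N) σ₂ y - lin (N := N) ρ₂ ρ ∈ S'.fam B (q + 1)
          exact sub_mem (sub_mem ht (hsm2 hy.1)) (hρ2 hρ0)⟩, by
        change (coneT γ).d (p - lin (N := N) σ₁ y - lin (N := N) ρ₁ ρ,
          t - lin (N := N) σ₂ y - lin (N := N) ρ₂ ρ) = 0
        rw [coneT_d]
        have h1 := hr1 ρ
        have h2 := hr2 ρ
        rw [hρy] at h1 h2
        refine Prod.ext ?_ ?_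
        · change -(S.d (p - lin (N := N) σ₁ y - lin (N := N) ρ₁ ρ)) = 0
          rw [map_sub, map_sub, hp.2, zero_sub]
          rw [e1] at h1
          rw [h1]
          abel
        · change γ.f (p - lin (N := N) σ₁ y - lin (N := N) ρ₁ ρ) +
            S'.d (t - lin (N := N) σ₂ y - lin (N := N) ρ₂ ρ) = 0
          rw [sub_eq_iff_eq_add] at e2
          rw [← sub_eq_zero] at h2
          simp only [map_sub] at *
          rw [hyt, e2]
          rw [sub_eq_zero] at h2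
          rw [h2]
          abel⟩
    rw [hlr, coneT_d] at hu
    have e3 : -(S.d u1) = lin (N := N) ρ₁ ρ' -
      (p - lin (N := N) σ₁ y - lin (N := N) ρ₁ ρ) := congrArg Prod.fst hu
    change u1 ∈ S.fam B (q + 1 + 1 - 1) at hu1
    rw [add_sub_cancel_right] at hu1
    refine ⟨Sum.elim (-y) (ρ + ρ'), ⟨?_, ?_⟩, -u1, neg_mem hu1, ?_⟩
    · rw [hmem]
      exact ⟨neg_mem hy.1, add_mem hρ0 hρ'.1⟩
    · rw [hd, Sum.elim_comp_inl, Sum.elim_comp_inr, Matrix.neg_vecMul, hy.2, neg_zero,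
        Matrix.neg_vecMul, neg_neg, Matrix.add_vecMul, hρy, hρ'.2, add_zero, sub_self]
      exact Sum.elim_zero_zero
    · change _ = lin (N := N) φ (Sum.elim (-y) (ρ + ρ')) - p
      rw [hφ, Sum.elim_comp_inl, Sum.elim_comp_inr, map_neg, e3, map_add, map_neg]
      abel

end

/-! ## Shifts -/

section

variable {Γ : Type} [Group Γ] {D : Type} {P : D → Type} [∀ i, PartialOrder (P i)]
  [∀ i, MulAction Γ (P i)] {N : Type} [Monoid N] {π : N →* Γ} {U : Finset D}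

theorem co_eq {ι : Type} {ft : Fintype ι} {de : DecidableEq ι} {deg deg' : ι → ℤ}
    {sz sz' : ι → Sz P} {d d' : Matrix ι ι (ZM N)} (h1 : deg = deg') (h2 : sz = sz')
    (h3 : d = d') : (⟨⟨ι, ft, de, deg, sz⟩, d⟩ : Co P N) = ⟨⟨ι, ft, de, deg', sz'⟩, d'⟩ := by
  subst h1 h2 h3
  rfl

theorem cone_us {X Y : Co P N} (f : Matrix X.ι Y.ι (ZM N)) :
    (cone X Y f).us = cone X.us Y.us (-f) := by
  refine co_eq ?_ rfl ?_
  · funext l
    rcases l with l | l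
    · change X.deg l + 1 - 1 = X.deg l - 1 + 1
      ring
    · rfl
  · change -(Matrix.fromBlocks (-X.d) f 0 Y.d) = Matrix.fromBlocks (-(-X.d)) (-f) 0 (-Y.d)
    rw [Matrix.fromBlocks_neg, neg_zero]

theorem ch_us {X Y : Co P N} {f : Matrix X.ι Y.ι (ZM N)} (hf : Ch π U X Y f) :
    Ch π U X.us Y.us f := by
  refine ⟨fun l k m hm => ?_, ?_⟩
  · obtain ⟨h1, h2⟩ := hf.1 l k m hm
    exact ⟨by change Y.deg k - 1 = X.deg l - 1 + 0; omega, h2⟩
  · change -X.d * f = f * -Y.d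
    rw [Matrix.neg_mul, Matrix.mul_neg, hf.2]

theorem ch_us_neg {X Y : Co P N} {f : Matrix X.ι Y.ι (ZM N)} (hf : Ch π U X Y f) :
    Ch π U X.us Y.us (-f) := (ch_us hf).neg

theorem nul_us {X Y : Co P N} {f : Matrix X.ι Y.ι (ZM N)} (hf : Nul π U X Y f) :
    Nul π U X.us Y.us f := by
  obtain ⟨s, hs, h1⟩ := hf
  refine ⟨-s, fun l k m hm => ?_, ?_⟩
  · obtain ⟨h2, h3⟩ := hs l k m (coeff_neg_ne hm)
    exact ⟨by change Y.deg k - 1 = X.deg l - 1 + 1; omega, h3⟩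
  · change f = -X.d * -s + -s * -Y.d
    rw [Matrix.neg_mul, Matrix.mul_neg, neg_neg, Matrix.neg_mul, Matrix.mul_neg, neg_neg]
    exact h1

theorem iso_us {X Y : Co P N} (hXY : Iso π U X 1 Y 1) : Iso π U X.us 1 Y.us 1 := by
  obtain ⟨u, v, hu, hv, h1, h2⟩ := hXY
  exact ⟨u, v, ch_us hu, ch_us hv, nul_us h1, nul_us h2⟩

end

section

variable {Γ : Type} [Group Γ] {D : Type} [Fintype D] [LinearOrder D] {V : D → Type}
  [∀ i, MulAction Γ (V i)] {T : ∀ i, SimpleGraph (V i)} {h : ∀ i, TreeAct Γ (V i) (T i)}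
  {N : Type} [Group N] {π : N →* Γ}

theorem eps_sub_one (n : ℤ) (i : D) (φ : Finset D) : eps (n - 1) i φ = -eps n i φ := by
  have h1 : n + ((φ.filter (· < i)).card : ℤ) = (n - 1 + ((φ.filter (· < i)).card : ℤ)) + 1 := by
    ring
  rw [eps, eps, h1, sgn, sgn, Int.negOnePow_succ, Units.val_neg, neg_neg]

theorem Kc_us (n : ℤ) {ι : Type} [Fintype ι] [DecidableEq ι] (p : ι → Pos V)
    (ν : D → Matrix ι ι (ZM N)) : (Kc h N n p ν).us = Kc h N (n - 1) p ν := by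
  refine co_eq ?_ rfl ?_
  · funext x
    change n + (x.2.card : ℤ) - 1 = n - 1 + (x.2.card : ℤ)
    ring
  · funext a b
    change -(∑ i ∈ a.2, if b.2 = a.2.erase i then
      eps n i a.2 • ((if a.1 = b.1 then 1 else 0) - ν i a.1 b.1) else 0) =
      ∑ i ∈ a.2, if b.2 = a.2.erase i then
      eps (n - 1) i a.2 • ((if a.1 = b.1 then 1 else 0) - ν i a.1 b.1) else 0
    rw [← Finset.sum_neg_distrib]
    refine Finset.sum_congr rfl fun i _ => ?_
    split_ifs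
    · rw [eps_sub_one, neg_smul]
    · rw [eps_sub_one, neg_smul]
    · rw [neg_zero]

theorem Cls.us {X : Co (SP h) N} (hX : Cls h π X) : Cls h π X.us := by
  induction hX with
  | el p n hp =>
    rw [Kc_us]
    exact Cls.el p (n - 1) hp
  | @cone X Y f _ _ hf hX hY =>
    rw [cone_us]
    exact Cls.cone (X := X.us) (Y := Y.us) (-f) hX hY (ch_us_neg hf)
  | iso _ hY hC hXY ih => exact Cls.iso ih hY.us hC (iso_us hXY)

theorem kc_emp_inC {S : Tg (SP h) π Finset.univ} (hS : ∀ q B, S.Zc q B ≤ S.Bc q B) :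
    InC h π S := by
  have hQ : Cls h π (Kc h N 0 (ι := Empty) (fun e => e.elim) fun _ => 0) :=
    Cls.el (fun e : Empty => e.elim) 0 fun e => e.elim
  refine ⟨Kc h N 0 (ι := Empty) (fun e => e.elim) fun _ => 0, fun x => x.1.elim, hQ,
    ⟨fun x => x.1.elim, ?_⟩, ⟨fun x => x.1.elim, fun x => ?_⟩, fun q B x _ _ => ?_,
    fun q B y hy => ⟨0, zero_mem _, ?_⟩⟩
  · funext x
    exact x.1.elim
  · rw [lin_apply, lin_apply, map_sum]
    refine Finset.sum_congr rfl fun l _ => l.1.elim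
  · refine ⟨0, zero_mem _, ?_⟩
    funext l
    exact l.1.elim
  · rw [map_zero, zero_sub]
    exact neg_mem (hS q B hy)

theorem kc_two {S S' : Tg (SP h) π Finset.univ} (γ : TgHom S S') (h1 : InC h π S)
    (h2 : InC h π S') : InC h π (coneT γ) := by
  obtain ⟨Q, g, cQ, hQ, hg, hI, hS⟩ := h1
  obtain ⟨Q', g', cQ', hQ', hg', hI', hS'⟩ := h2
  obtain ⟨a, ha, s, hs, hh⟩ := ((stLift stSolve) Γ D (SP h) N π Finset.univ Q' Q S' g' hQ' hQ hg'
    hI' hS').1 (fun l => γ.f (g l)) (chT_comp γ hg)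
  obtain ⟨φ, hφ1, hφ2, hφ3⟩ := cone_two γ hQ hQ' hg hg' hI hS hI' hS' ha hs fun x => by
    rw [← hh x, lin_sub', lin_map, LiftM.lin_comp]
  exact ⟨_, φ, Cls.cone a cQ cQ' ha, hQ.cone hQ' ha, hφ1, hφ2, hφ3⟩

theorem kc_three {S S' : Tg (SP h) π Finset.univ} (γ : TgHom S S') (h1 : InC h π S)
    (h2 : InC h π (coneT γ)) : InC h π S' := by
  obtain ⟨Q, g, cQ, hQ, hg, hI, hS⟩ := h1
  obtain ⟨R, ρ, cR, hR, hρ, hIR, hSR⟩ := h2
  have hρ' : (fun l => ((ρ l).1, (ρ l).2)) = ρ := rfl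
  have hρ1 : ChT R.us S fun l => (ρ l).1 := by
    refine ⟨fun l => (hρ.1 l).1, fun x => ?_⟩
    have e1 := hρ.2 x
    have e2 : ∀ y : R.ι → ZM N, lin (N := N) (V := S.V × S'.V) ρ y =
      (lin (N := N) (fun l => (ρ l).1) y, lin (N := N) (fun l => (ρ l).2) y) := fun y =>
        lin_pair' (fun l => (ρ l).1) (fun l => (ρ l).2) y
    have e3 : (lin (N := N) (V := S.V × S'.V) ρ (x ᵥ* R.d)) =
      (coneT γ).d (lin (N := N) (V := S.V × S'.V) ρ x) := e1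
    rw [e2, e2, coneT_d] at e3
    have e4 : lin (N := N) (fun l => (ρ l).1) (x ᵥ* R.d) =
      -(S.d (lin (N := N) (fun l => (ρ l).1) x)) := congrArg Prod.fst e3
    change lin (N := N) (fun l => (ρ l).1) (x ᵥ* -R.d) = _
    rw [Matrix.vecMul_neg, map_neg, e4, neg_neg]
  obtain ⟨b, hb, s, hs, hh⟩ := ((stLift stSolve) Γ D (SP h) N π Finset.univ Q R.us S g hQ hR.us hg
    hI hS).1 (fun l => (ρ l).1) hρ1
  obtain ⟨φ, hφ1, hφ2, hφ3⟩ := cone_three γ (ρ₁ := fun l => (ρ l).1) (ρ₂ := fun l => (ρ l).2)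
    hR hQ hρ hg hIR hSR hI hS hb hs fun x => by
      have e1 := hh x
      rw [lin_sub', LiftM.lin_comp] at e1
      rw [e1]
      change lin (N := N) s (x ᵥ* -R.d) + _ = _
      rw [Matrix.vecMul_neg, map_neg]
  exact ⟨_, φ, Cls.cone b cR.us cQ hb, hR.us.cone hQ hb, hφ1, hφ2, hφ3⟩

theorem kc_four {S S' : Tg (SP h) π Finset.univ} (γ : TgHom S S') (h1 : InC h π S')
    (h2 : InC h π (coneT γ)) : InC h π S := by
  obtain ⟨Q', g', cQ', hQ', hg', hI', hS'⟩ := h1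
  obtain ⟨R, ρ, cR, hR, hρ, hIR, hSR⟩ := h2
  have e2 : ∀ y : R.ι → ZM N, lin (N := N) (V := S.V × S'.V) ρ y =
    (lin (N := N) (fun l => (ρ l).1) y, lin (N := N) (fun l => (ρ l).2) y) := fun y =>
      lin_pair' (fun l => (ρ l).1) (fun l => (ρ l).2) y
  have hu : ChT Q' (coneT γ) fun k => ((0, g' k) : S.V × S'.V) := by
    refine ⟨fun l => ⟨zero_mem _, hg'.1 l⟩, fun x => ?_⟩
    change lin (N := N) (V := S.V × S'.V) _ _ = (coneT γ).d (lin (N := N) (V := S.V × S'.V) _ _)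
    rw [lin_pair', lin_pair', lin_zero', lin_zero', coneT_d, hg'.2, map_zero, map_zero, neg_zero,
      zero_add]
  obtain ⟨a, ha, σ, hσ, hh⟩ := ((stLift stSolve) Γ D (SP h) N π Finset.univ R Q' (coneT γ) ρ hR hQ'
    hρ hIR hSR).1 (fun k => ((0, g' k) : S.V × S'.V)) hu
  have e3 : ∀ y : Q'.ι → ZM N, lin (N := N) (V := S.V × S'.V) σ y =
    (lin (N := N) (fun l => (σ l).1) y, lin (N := N) (fun l => (σ l).2) y) := fun y =>
      lin_pair' (fun l => (σ l).1) (fun l => (σ l).2) y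
  have e4 : ∀ x : Q'.ι → ZM N, (0 : S.V) - lin (N := N) (fun l => (ρ l).1) (x ᵥ* a) =
      lin (N := N) (fun l => (σ l).1) (x ᵥ* Q'.d) +
        -(S.d (lin (N := N) (fun l => (σ l).1) x)) ∧
      lin (N := N) g' x - lin (N := N) (fun l => (ρ l).2) (x ᵥ* a) =
      lin (N := N) (fun l => (σ l).2) (x ᵥ* Q'.d) +
        (γ.f (lin (N := N) (fun l => (σ l).1) x) + S'.d (lin (N := N) (fun l => (σ l).2) x)) := by
    intro x
    have e5 := hh x
    rw [lin_sub', LiftM.lin_comp] at e5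
    have hA : lin (N := N) (V := (coneT γ).V) (fun k => ((0, g' k) : S.V × S'.V)) x =
        ((0, lin (N := N) g' x) : S.V × S'.V) := by
      refine (lin_pair' (fun _ => (0 : S.V)) g' x).trans ?_
      rw [lin_zero']
    have hB : lin (N := N) (V := (coneT γ).V) ρ (x ᵥ* a) = ((lin (N := N) (fun l => (ρ l).1)
      (x ᵥ* a), lin (N := N) (fun l => (ρ l).2) (x ᵥ* a)) : S.V × S'.V) := e2 _
    have hC : ∀ y, lin (N := N) (V := (coneT γ).V) σ y = ((lin (N := N) (fun l => (σ l).1)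
      y, lin (N := N) (fun l => (σ l).2) y) : S.V × S'.V) := e3
    rw [hA, hB, hC, hC, coneT_d] at e5
    exact ⟨congrArg Prod.fst e5, congrArg Prod.snd e5⟩
  obtain ⟨φ, hφ1, hφ2, hφ3⟩ := cone_four γ (ρ₁ := fun l => (ρ l).1) (ρ₂ := fun l => (ρ l).2)
    hR hQ' hρ hg' hIR hSR hI' hS' ha (σ₁ := fun l => (σ l).1) (σ₂ := fun l => (σ l).2)
    (fun l => by
      have h1 : (σ l).1 ∈ S.fam (Q'.sz l) (Q'.deg l + 1 - 1) := (hσ l).1
      rwa [add_sub_cancel_right] at h1) (fun l => (hσ l).2)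
    (fun x => by
      have e5 := (e4 x).1
      rw [zero_sub] at e5
      rw [e5, sub_eq_add_neg])
    (fun x => (e4 x).2)
  exact ⟨_, φ, (Cls.cone a cQ' cR ha).us, (hQ'.cone hR ha).us, hφ1, hφ2, hφ3⟩

theorem kc_one {S S' : Tg (SP h) π Finset.univ} (γ : TgHom S S') (hγ : HIso γ) :
    InC h π S ↔ InC h π S' := by
  constructor
  · rintro ⟨Q, g, cQ, hQ, hg, hI, hS⟩
    refine ⟨Q, _, cQ, hQ, chT_comp γ hg, fun q B x hx hb => ?_, fun q B y hy => ?_⟩
    · rw [lin_map] at hb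
      exact hI q B x hx ((hγ q B).1 _ (hg.mem_Zc hx) hb)
    · obtain ⟨z, hz, hzy⟩ := (hγ q B).2 y hy
      obtain ⟨x, hx, hxz⟩ := hS q B z hz
      refine ⟨x, hx, ?_⟩
      rw [lin_map]
      have h1 : γ.f (lin (N := N) g x) - y = γ.f (lin (N := N) g x - z) + (γ.f z - y) := by
        rw [map_sub]
        abel
      rw [h1]
      exact add_mem (γ.mem_Bc hxz) hzy
  · intro h1
    exact kc_four γ h1 (kc_emp_inC fun q B => hIso_exact hγ q B)

/-- Module KC. -/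
theorem stKC : StKC := by
  intro Γ _ D _ _ V _ T h N _ π S S' γ
  exact ⟨kc_one γ, kc_two γ, kc_three γ, kc_four γ⟩

end

end Pool.Agent.Lib.MP_551055_al.W17
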