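import Pool.Agent.Lib.MP_551055_al.W17.KX
import Pool.Agent.Lib.MP_551055_al.MT.Link

/-!
# Trees and products: the finite complex of a free nil module
-/

set_option autoImplicit false
set_option linter.unusedSectionVars false

namespace Pool.Agent.Lib.MP_551055_al.W17

open Pool.Agent.Lib.MP_551055_al
open Pool.Agent.Lib.MP_551055_al.LS (TreeAct ZN)
open Pool.Agent.Lib.MP_551055_al.MT
open Matrix

/-! ## A general homotopy -/

section

variable {Γ : Type} [Group Γ] {D : Type} [Fintype D] [LinearOrder D] {V : D → Type}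
  [∀ i, MulAction Γ (V i)] {T : ∀ i, SimpleGraph (V i)} {N : Type} [Group N] {π : N →* Γ}
  {A : Nm T π} (n : ℤ)

theorem eps_insert_self {i : D} {φ : Finset D} : eps n i (insert i φ) = eps n i φ := by
  unfold eps
  rw [Finset.filter_insert, if_neg (lt_irrefl i)]

/-- The homotopy of an operator. -/
noncomputable def kfS (i : D) (L : A.M →+ A.M) (v : Finset D → A.M) : Finset D → A.M := fun φ =>
  if i ∈ φ then eps n i (φ.erase i) • L (v (φ.erase i)) else 0

/-- The homotopy formula. -/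
theorem kf_formula (i : D) (L : A.M →+ A.M)
    (hL : ∀ j, j ≠ i → ∀ m, L (A.nu j m) = A.nu j (L m)) (v : Finset D → A.M) (φ : Finset D) :
    ktD A n (kfS n i L v) φ + kfS n i L (ktD A n v) φ =
      if i ∈ φ then L (v φ) - L (A.nu i (v φ)) else L (v φ) - A.nu i (L (v φ)) := by
  by_cases hi : i ∈ φ
  · set ψ := φ.erase i with hψ
    have hφ : φ = insert i ψ := (Finset.insert_erase hi).symm
    have hiψ : i ∉ ψ := Finset.notMem_erase i φ
    have h2 : kfS n i L (ktD A n v) φ = eps n i ψ • L (ktD A n v ψ) := if_pos hi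
    have h3 : ktD A n (kfS n i L v) φ = ∑ j ∈ Finset.univ \ φ,
        (eps n j φ * eps n i (insert j ψ)) •
          (L (v (insert j ψ)) - A.nu j (L (v (insert j ψ)))) := by
      change ∑ j ∈ Finset.univ \ φ, eps n j φ • (kfS n i L v (insert j φ) -
        A.nu j (kfS n i L v (insert j φ))) = _
      refine Finset.sum_congr rfl fun j hj => ?_
      rw [Finset.mem_sdiff] at hj
      have hji : j ≠ i := fun h4 => hj.2 (h4 ▸ hi)
      have h5 : (insert j φ).erase i = insert j ψ := Finset.erase_insert_of_ne hji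
      have h6 : kfS n i L v (insert j φ) = eps n i (insert j ψ) • L (v (insert j ψ)) := by
        change (if i ∈ insert j φ then eps n i ((insert j φ).erase i) •
          L (v ((insert j φ).erase i)) else 0) = _
        rw [if_pos (Finset.mem_insert_of_mem hi), h5]
      rw [h6, map_zsmul, ← smul_sub, smul_smul]
    have h4 : eps n i ψ • L (ktD A n v ψ) = (L (v φ) - L (A.nu i (v φ))) +
        ∑ j ∈ Finset.univ \ φ, (eps n i ψ * eps n j ψ) •
          (L (v (insert j ψ)) - A.nu j (L (v (insert j ψ)))) := by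
      have h5 : Finset.univ \ ψ = insert i (Finset.univ \ φ) := by
        ext j
        simp only [Finset.mem_sdiff, Finset.mem_univ, true_and, Finset.mem_insert, hψ,
          Finset.mem_erase, not_and]
        by_cases hj : j = i
        · simp [hj]
        · simp [hj]
      have h6 : i ∉ Finset.univ \ φ := fun h7 => (Finset.mem_sdiff.1 h7).2 hi
      change eps n i ψ • L (∑ j ∈ Finset.univ \ ψ,
        eps n j ψ • (v (insert j ψ) - A.nu j (v (insert j ψ)))) = _
      rw [h5, Finset.sum_insert h6, map_add, smul_add, map_sum, Finset.smul_sum]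
      congr 1
      · rw [map_zsmul, smul_smul, kx_eps_sq, one_smul, ← hφ, map_sub]
      · refine Finset.sum_congr rfl fun j hj => ?_
        rw [Finset.mem_sdiff] at hj
        have hji : j ≠ i := fun h4 => hj.2 (h4 ▸ hi)
        rw [map_zsmul, smul_smul, map_sub, hL j hji]
    rw [if_pos hi, h2, h3, h4, add_comm, add_assoc, ← Finset.sum_add_distrib]
    have h9 : ∀ j ∈ Finset.univ \ φ, (eps n i ψ * eps n j ψ) •
          (L (v (insert j ψ)) - A.nu j (L (v (insert j ψ)))) +
        (eps n j φ * eps n i (insert j ψ)) •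
          (L (v (insert j ψ)) - A.nu j (L (v (insert j ψ)))) = 0 := by
      intro j hj
      rw [Finset.mem_sdiff] at hj
      have hji : j ≠ i := fun h4 => hj.2 (h4 ▸ hi)
      have hjψ : j ∉ ψ := fun h4 => hj.2 (Finset.mem_of_mem_erase h4)
      rw [← add_smul, hφ, add_comm (eps n i ψ * eps n j ψ), kx_eps_cross n hiψ hjψ (Ne.symm hji),
        zero_smul]
    rw [Finset.sum_eq_zero h9, add_zero]
  · have h2 : kfS n i L (ktD A n v) φ = 0 := if_neg hi
    have h3 : ktD A n (kfS n i L v) φ = L (v φ) - A.nu i (L (v φ)) := by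
      change ∑ j ∈ Finset.univ \ φ, eps n j φ • (kfS n i L v (insert j φ) -
        A.nu j (kfS n i L v (insert j φ))) = _
      rw [Finset.sum_eq_single i]
      · have h6 : kfS n i L v (insert i φ) = eps n i φ • L (v φ) := by
          change (if i ∈ insert i φ then eps n i ((insert i φ).erase i) •
            L (v ((insert i φ).erase i)) else 0) = _
          rw [if_pos (Finset.mem_insert_self i φ), Finset.erase_insert hi]
        rw [h6, map_zsmul, ← smul_sub, smul_smul, kx_eps_sq, one_smul]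
      · intro j hj hji
        have h6 : kfS n i L v (insert j φ) = 0 :=
          if_neg fun h7 => (Finset.mem_insert.1 h7).elim (fun h8 => hji h8.symm) hi
        rw [h6, map_zero, sub_zero, smul_zero]
      · intro h7
        exact absurd (Finset.mem_sdiff.2 ⟨Finset.mem_univ i, hi⟩) h7
    rw [if_neg hi, h2, h3, add_zero]

end

/-! ## The bijection -/

/-- A double sum over faces. -/
theorem sum_faces {D M : Type} [Fintype D] [DecidableEq D] [AddCommMonoid M]
    (F : Finset D → D → M) (φ : Finset D) :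
    ∑ ψ : Finset D, ∑ i ∈ ψ, (if φ = ψ.erase i then F ψ i else 0) =
      ∑ i ∈ Finset.univ \ φ, F (insert i φ) i := by
  have h1 : ∑ ψ : Finset D, ∑ i ∈ ψ, (if φ = ψ.erase i then F ψ i else 0) =
      ∑ i : D, ∑ ψ ∈ Finset.univ.filter (fun ψ : Finset D => i ∈ ψ),
        (if φ = ψ.erase i then F ψ i else 0) := by
    refine Finset.sum_comm' fun ψ i => ?_
    simp only [Finset.mem_univ, true_and, Finset.mem_filter, and_true]
  have h2 : Finset.univ \ φ = Finset.univ.filter fun i => i ∉ φ := by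
    ext i
    simp only [Finset.mem_sdiff, Finset.mem_univ, true_and, Finset.mem_filter]
  rw [h1, h2, Finset.sum_filter]
  refine Finset.sum_congr rfl fun i _ => ?_
  by_cases hi : i ∈ φ
  · rw [if_neg (not_not.2 hi)]
    refine Finset.sum_eq_zero fun ψ _ => if_neg fun h3 => ?_
    rw [h3] at hi
    exact Finset.notMem_erase i ψ hi
  · rw [if_pos hi, Finset.sum_eq_single (insert i φ)]
    · rw [if_pos (Finset.erase_insert hi).symm]
    · intro ψ hψ hne
      refine if_neg fun h3 => hne ?_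
      rw [h3, Finset.insert_erase (Finset.mem_filter.1 hψ).2]
    · intro h3
      have h4 : insert i φ ∈ Finset.univ.filter (fun ψ : Finset D => i ∈ ψ) :=
        Finset.mem_filter.2 ⟨Finset.mem_univ _, Finset.mem_insert_self i φ⟩
      exact absurd h4 h3

section

variable {Γ : Type} [Group Γ] {D : Type} [Fintype D] [LinearOrder D] {V : D → Type}
  [∀ i, MulAction Γ (V i)] {T : ∀ i, SimpleGraph (V i)} (h : ∀ i, TreeAct Γ (V i) (T i))
  {N : Type} [Group N] {π : N →* Γ} {ι : Type} [Fintype ι] [DecidableEq ι] {p : ι → Pos V}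
  {ν : D → Matrix ι ι (ZM N)}

/-- The bijection. -/
def kfK (N : Type) [Monoid N] (D ι : Type) :
    (ι × Finset D → ZM N) →ₗ[ZM N] (Finset D → ι → ZM N) where
  toFun x φ l := x (l, φ)
  map_add' _ _ := rfl
  map_smul' _ _ := rfl

theorem kfK_apply (x : ι × Finset D → ZM N) (φ : Finset D) (l : ι) :
    kfK N D ι x φ l = x (l, φ) := rfl

theorem kfK_bij (N : Type) [Monoid N] (D ι : Type) : Function.Bijective (kfK N D ι) := by
  refine ⟨fun x y hxy => ?_, fun v => ⟨fun a => v a.2 a.1, rfl⟩⟩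
  funext a
  exact congrFun (congrFun hxy a.2) a.1

/-- The differential. -/
noncomputable def kcD (ν : D → Matrix ι ι (ZM N)) (n : ℤ) :
    Matrix (ι × Finset D) (ι × Finset D) (ZM N) := fun a b =>
  ∑ i ∈ a.2, if b.2 = a.2.erase i then
    eps n i a.2 • ((if a.1 = b.1 then 1 else 0) - ν i a.1 b.1) else 0

theorem kc_d (n : ℤ) : (Kc h N n p ν).d = kcD ν n := rfl

/-- The bijection is compatible with the differentials. -/
theorem kfK_d (hp : FrOk T π p ν) (n : ℤ) (x : ι × Finset D → ZM N) :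
    kfK N D ι (x ᵥ* kcD ν n) = ktD (Fr h hp) n (kfK N D ι x) := by
  funext φ l
  change (∑ a : ι × Finset D, x a * ∑ i ∈ a.2, (if φ = a.2.erase i then
    eps n i a.2 • ((if a.1 = l then 1 else 0) - ν i a.1 l) else 0)) =
    (∑ i ∈ Finset.univ \ φ, eps n i φ • (kfK N D ι x (insert i φ) -
      kfK N D ι x (insert i φ) ᵥ* ν i)) l
  rw [Fintype.sum_prod_type, Finset.sum_comm]
  have h1 : ∀ ψ : Finset D, (∑ k : ι, x (k, ψ) * ∑ i ∈ ψ, (if φ = ψ.erase i then
      eps n i ψ • ((if k = l then (1 : ZM N) else 0) - ν i k l) else 0)) =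
      ∑ i ∈ ψ, (if φ = ψ.erase i then
        eps n i ψ • ∑ k : ι, x (k, ψ) * ((if k = l then (1 : ZM N) else 0) - ν i k l) else 0) := by
    intro ψ
    simp only [Finset.mul_sum]
    rw [Finset.sum_comm]
    refine Finset.sum_congr rfl fun i _ => ?_
    split_ifs with h2
    · rw [Finset.smul_sum]
      exact Finset.sum_congr rfl fun k _ => by rw [mul_smul_comm]
    · exact Finset.sum_eq_zero fun k _ => mul_zero _
  rw [Finset.sum_congr rfl fun ψ _ => h1 ψ, sum_faces, Finset.sum_apply]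
  refine Finset.sum_congr rfl fun i _ => ?_
  rw [eps_insert_self, Pi.smul_apply, Pi.sub_apply]
  congr 1
  have h2 : ∀ k : ι, x (k, insert i φ) * ((if k = l then (1 : ZM N) else 0) - ν i k l) =
      (if k = l then x (k, insert i φ) else 0) - x (k, insert i φ) * ν i k l := by
    intro k
    rw [mul_sub, mul_ite, mul_one, mul_zero]
  rw [Finset.sum_congr rfl fun k _ => h2 k, Finset.sum_sub_distrib,
    Finset.sum_ite_eq' Finset.univ l, if_pos (Finset.mem_univ l)]
  rfl

/-- The families correspond. -/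
theorem kfK_fam (hp : FrOk T π p ν) (n : ℤ) (B : Sz (SP h)) (q : ℤ)
    (x : ι × Finset D → ZM N) :
    kfK N D ι x ∈ ktFam h (Fr h hp) n B q ↔
      x ∈ fam π Finset.univ (Kc h N n p ν).toOb B q := by
  constructor
  · rintro hx ⟨l, φ⟩ m hm
    have h1 : frPr π p (π m • p l) (kfK N D ι x φ) ≠ 0 := by
      intro h2
      have h3 := congrArg (fun z : ZM N => z.coeff m) (congrFun h2 l)
      classical
      change ((frPr π p (π m • p l) (kfK N D ι x φ)) l).coeff m = 0 at h3
      rw [frPr_coeff, if_pos rfl] at h3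
      exact hm h3
    obtain ⟨h2, h3⟩ := hx φ _ h1
    refine ⟨h2, fun i _ => ?_⟩
    have h4 := h3 i
    rw [← kta_smul_sx h (hp.oe l)] at h4
    exact h4
  · intro hx φ y hy
    change frPr π p y (kfK N D ι x φ) ≠ 0 at hy
    obtain ⟨l, m, hm⟩ := exists_coeff_ne hy
    obtain ⟨h1, h2⟩ := frPr_coeff_ne hm
    obtain ⟨h3, h4⟩ := hx (l, φ) m h2
    refine ⟨h3, fun i => ?_⟩
    rw [← h1, ← kta_smul_sx h (hp.oe l)]
    exact h4 i (Finset.mem_univ i)

include h in
theorem kfK_dd (hp : FrOk T π p ν) (n : ℤ) (x : ι × Finset D → ZM N) :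
    (x ᵥ* kcD ν n) ᵥ* kcD ν n = 0 := by
  refine (kfK_bij N D ι).1 ?_
  have h1 := kfK_d h hp n (x ᵥ* kcD ν n)
  have h2 := kfK_d h hp n x
  refine h1.trans ?_
  refine (congrArg (ktD (Fr h hp) n) h2).trans ?_
  exact (kta_dd (Fr h hp) n _).trans (map_zero (kfK N D ι)).symm

theorem kfK_mem (hp : FrOk T π p ν) (n : ℤ) (B : Sz (SP h)) (q : ℤ)
    (x : ι × Finset D → ZM N) (hx : x ∈ fam π Finset.univ (Kc h N n p ν).toOb B q) :
    x ᵥ* kcD ν n ∈ fam π Finset.univ (Kc h N n p ν).toOb B (q - 1) := by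
  refine (kfK_fam h hp n _ _ _).1 ?_
  have h1 := kta_mem h (Fr h hp) n _ _ _ ((kfK_fam h hp n _ _ _).2 hx)
  have h2 := kfK_d h hp n x
  exact h2.symm ▸ h1

theorem kc_isCx (hp : FrOk T π p ν) (n : ℤ) : IsCx π Finset.univ (Kc h N n p ν) := by
  refine ⟨?_, ?_⟩
  · rw [ct_iff]
    intro l
    have h1 : (Kc h N n p ν).d l = Pi.single l 1 ᵥ* (Kc h N n p ν).d :=
      (Matrix.single_one_vecMul _ _).symm
    rw [h1]
    exact kfK_mem h hp n _ _ _ (basis_mem_fam l)
  · refine link_mat_ext fun x => ?_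
    rw [Matrix.vecMul_zero, ← Matrix.vecMul_vecMul]
    exact kfK_dd h hp n x

theorem kc_cel (hp : FrOk T π p ν) (n : ℤ) : Cel h Finset.univ (Kc h N n p ν).toOb := by
  rintro ⟨l, φ⟩ i _
  change Cl (h i) (sx h (p l) φ i)
  by_cases hi : i ∈ φ
  · rw [kta_sx_mem h hi]
    exact Or.inl ⟨_, rfl⟩
  · rw [kta_sx_notMem h hi]
    exact Or.inr ⟨_, _, hp.oe l i, rfl⟩

theorem nu_pow_loc (hp : FrOk T π p ν) (i : D) (t : ℕ) {l k : ι} {m : N}
    (hm : ((ν i ^ t) l k).coeff m ≠ 0) : ∀ j, j ≠ i → (π m • p k) j = p l j := by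
  induction t generalizing k m with
  | zero =>
    intro j _
    rw [pow_zero, Matrix.one_apply] at hm
    by_cases hlk : l = k
    · rw [if_pos hlk] at hm
      rw [coeff_one_ne hm, map_one, one_smul, hlk]
    · rw [if_neg hlk] at hm
      exact absurd rfl hm
  | succ t ih =>
    intro j hj
    rw [pow_succ] at hm
    obtain ⟨c, a, b, ha, hb, hab⟩ := coeff_matmul_ne hm
    have h1 := ih ha j hj
    have h2 := (hp.loc i c k b hb).1 j hj
    rw [← hab, map_mul, mul_smul, ← h1]
    change π a • (π b • p k) j = π a • p c j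
    rw [h2]

/-- The inverse of `1 - ν i`. -/
noncomputable def kfL (ν : D → Matrix ι ι (ZM N)) (i : D) (K : ℕ) : Matrix ι ι (ZM N) :=
  ∑ t ∈ Finset.range K, ν i ^ t

/-- The contraction. -/
noncomputable def kfC (ν : D → Matrix ι ι (ZM N)) (n : ℤ) (i : D) (K : ℕ) :
    Matrix (ι × Finset D) (ι × Finset D) (ZM N) := fun a b =>
  if i ∉ a.2 ∧ b.2 = insert i a.2 then eps n i a.2 • kfL ν i K a.1 b.1 else 0

theorem kfK_C (hp : FrOk T π p ν) (n : ℤ) (i : D) (K : ℕ) (x : ι × Finset D → ZM N) :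
    kfK N D ι (x ᵥ* kfC ν n i K) = kfS (A := Fr h hp) n i
      (Matrix.vecMulLinear (kfL ν i K)).toAddMonoidHom (kfK N D ι x) := by
  funext φ l
  change (∑ a : ι × Finset D, x a * (if i ∉ a.2 ∧ φ = insert i a.2 then
    eps n i a.2 • kfL ν i K a.1 l else 0)) =
    (if i ∈ φ then eps n i (φ.erase i) • (kfK N D ι x (φ.erase i) ᵥ* kfL ν i K)
      else (0 : ι → ZM N)) l
  rw [Fintype.sum_prod_type, Finset.sum_comm]
  by_cases hi : i ∈ φ
  · rw [if_pos hi, Finset.sum_eq_single (φ.erase i)]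
    · rw [Pi.smul_apply]
      change _ = eps n i (φ.erase i) • ∑ k : ι, x (k, φ.erase i) * kfL ν i K k l
      rw [Finset.smul_sum]
      refine Finset.sum_congr rfl fun k _ => ?_
      rw [if_pos ⟨Finset.notMem_erase i φ, (Finset.insert_erase hi).symm⟩, mul_smul_comm]
    · intro ψ _ hψ
      refine Finset.sum_eq_zero fun k _ => ?_
      rw [if_neg, mul_zero]
      rintro ⟨h1, h2⟩
      apply hψ
      change φ = insert i ψ at h2
      rw [h2, Finset.erase_insert h1]
    · intro h1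
      exact absurd (Finset.mem_univ _) h1
  · rw [if_neg hi]
    refine Finset.sum_eq_zero fun ψ _ => Finset.sum_eq_zero fun k _ => ?_
    rw [if_neg, mul_zero]
    rintro ⟨h1, h2⟩
    apply hi
    change φ = insert i ψ at h2
    rw [h2]
    exact Finset.mem_insert_self i ψ

include h in
theorem kfK_contr (hp : FrOk T π p ν) (n : ℤ) (i : D) {K : ℕ} (hK : ν i ^ K = 0)
    (x : ι × Finset D → ZM N) : x = (x ᵥ* kcD ν n) ᵥ* kfC ν n i K +
      (x ᵥ* kfC ν n i K) ᵥ* kcD ν n := by
  refine (kfK_bij N D ι).1 ?_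
  have hL1 : ∀ m : ι → ZM N, (m ᵥ* kfL ν i K) ᵥ* ν i = m ᵥ* kfL ν i K - m := by
    intro m
    have h1 : kfL ν i K * (1 - ν i) = 1 - ν i ^ K := geom_sum_mul_neg (ν i) K
    rw [hK, sub_zero, mul_sub, mul_one] at h1
    rw [Matrix.vecMul_vecMul]
    have h2 : kfL ν i K * ν i = kfL ν i K - 1 := by
      rw [← h1]
      abel
    rw [h2, Matrix.vecMul_sub, Matrix.vecMul_one]
  have hL2 : ∀ m : ι → ZM N, (m ᵥ* ν i) ᵥ* kfL ν i K = m ᵥ* kfL ν i K - m := by
    intro m
    have h1 : (1 - ν i) * kfL ν i K = 1 - ν i ^ K := mul_neg_geom_sum (ν i) K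
    rw [hK, sub_zero, sub_mul, one_mul] at h1
    rw [Matrix.vecMul_vecMul]
    have h2 : ν i * kfL ν i K = kfL ν i K - 1 := by
      rw [← h1]
      abel
    rw [h2, Matrix.vecMul_sub, Matrix.vecMul_one]
  have hc : ∀ j, Commute (ν j) (kfL ν i K) := fun j =>
    Commute.sum_right _ _ _ fun t _ => (show Commute (ν j) (ν i) from hp.comm j i).pow_right t
  have key := fun φ => kf_formula (A := Fr h hp) n i
    (Matrix.vecMulLinear (kfL ν i K)).toAddMonoidHom (fun j _ m => by
      change (m ᵥ* ν j) ᵥ* kfL ν i K = (m ᵥ* kfL ν i K) ᵥ* ν j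
      rw [Matrix.vecMul_vecMul, Matrix.vecMul_vecMul, (hc j).eq]) (kfK N D ι x) φ
  have h5 : kfK N D ι ((x ᵥ* kcD ν n) ᵥ* kfC ν n i K) =
      kfS (A := Fr h hp) n i (Matrix.vecMulLinear (kfL ν i K)).toAddMonoidHom
        (ktD (Fr h hp) n (kfK N D ι x)) :=
    (kfK_C h hp n i K _).trans (congrArg _ (kfK_d h hp n x))
  have h6 : kfK N D ι ((x ᵥ* kfC ν n i K) ᵥ* kcD ν n) = ktD (Fr h hp) n
      (kfS (A := Fr h hp) n i (Matrix.vecMulLinear (kfL ν i K)).toAddMonoidHom
        (kfK N D ι x)) :=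
    (kfK_d h hp n _).trans (congrArg _ (kfK_C h hp n i K x))
  rw [map_add]
  funext φ
  have h7 := key φ
  have h8 := congrFun h5 φ
  have h9 := congrFun h6 φ
  rw [Pi.add_apply, h8, h9, add_comm]
  refine Eq.trans ?_ h7.symm
  by_cases hi : i ∈ φ
  · rw [if_pos hi]
    change _ = kfK N D ι x φ ᵥ* kfL ν i K - (kfK N D ι x φ ᵥ* ν i) ᵥ* kfL ν i K
    rw [hL2]
    abel
  · rw [if_neg hi]
    change _ = kfK N D ι x φ ᵥ* kfL ν i K - (kfK N D ι x φ ᵥ* kfL ν i K) ᵥ* ν i
    rw [hL1]
    abel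

theorem kc_contr (hp : FrOk T π p ν) (n : ℤ) (i : D) :
    Contr π (Finset.univ.erase i) (Kc h N n p ν) := by
  obtain ⟨K, hK⟩ := hp.nil i
  refine ⟨kfC ν n i K, ?_, ?_⟩
  · rintro ⟨l, φ⟩ ⟨k, ψ⟩ m hm
    change (if i ∉ φ ∧ ψ = insert i φ then eps n i φ • kfL ν i K l k else 0 : ZM N).coeff m ≠ 0
      at hm
    by_cases hc : i ∉ φ ∧ ψ = insert i φ
    · rw [if_pos hc] at hm
      obtain ⟨hi, rfl⟩ := hc
      have h1 : (kfL ν i K l k).coeff m ≠ 0 := by
        intro h2
        apply hm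
        change eps n i φ • (kfL ν i K l k).coeff m = 0
        rw [h2, smul_zero]
      have h2 : kfL ν i K l k = ∑ t ∈ Finset.range K, (ν i ^ t) l k := by
        unfold kfL
        rw [Matrix.sum_apply]
      rw [h2] at h1
      obtain ⟨t, -, ht⟩ := coeff_sum_ne h1
      have h3 := nu_pow_loc hp i t ht
      refine ⟨?_, fun j hj => ?_⟩
      · change n + ((insert i φ).card : ℤ) = n + (φ.card : ℤ) + 1
        rw [Finset.card_insert_of_notMem hi, Nat.cast_add, Nat.cast_one, add_assoc]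
      · have hji : j ≠ i := Finset.ne_of_mem_erase hj
        change sx h (p l) φ j ≤ π m • sx h (p k) (insert i φ) j
        rw [kta_smul_sx h (hp.oe k), kta_sx_insert_ne h hji, kta_sx_congr h (h3 j hji)]
    · rw [if_neg hc] at hm
      exact absurd rfl hm
  · refine link_mat_ext fun (x : ι × Finset D → ZM N) => ?_
    change x ᵥ* (1 : Matrix (ι × Finset D) (ι × Finset D) (ZM N)) =
      x ᵥ* (kcD ν n * kfC ν n i K + kfC ν n i K * kcD ν n)
    rw [Matrix.vecMul_one, Matrix.vecMul_add, ← Matrix.vecMul_vecMul, ← Matrix.vecMul_vecMul]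
    exact kfK_contr h hp n i hK x

end

/-- The proof of module KF. -/
theorem stKF : StKF := by
  intro Γ _ D _ _ V _ T h N _ π ι _ _ p ν hp n
  refine ⟨⟨kc_isCx h hp n, kc_cel h hp n, kc_contr h hp n⟩, fun hK => ?_⟩
  refine ⟨⟨kfK N D ι, fun B q x hx => (kfK_fam h hp n B q x).2 hx, fun x => kfK_d h hp n x⟩,
    kfK_bij N D ι, fun B q x hx => (kfK_fam h hp n B q x).1 hx, fun x φ l => rfl⟩

end Pool.Agent.Lib.MP_551055_al.W17
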