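import Pool.Agent.Lib.MP_551055_al.W17.KX

/-!
# Trees and products: the homology of the cone of a map from the complex of a free nil module
-/

set_option autoImplicit false

namespace Pool.Agent.Lib.MP_551055_al.W17

open Pool.Agent.Lib.MP_551055_al
open Pool.Agent.Lib.MP_551055_al.LS (TreeAct ZN)
open Pool.Agent.Lib.MP_551055_al.MT
open Matrix

section

variable {Γ : Type} [Group Γ] {D : Type} {P : D → Type} [∀ i, PartialOrder (P i)]
  [∀ i, MulAction Γ (P i)] [SzAct Γ P] {N : Type} [Monoid N] {π : N →* Γ} {U : Finset D}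

/-- The cone of `g` is exact in degree `q` if `K` is exact in degree `q - 1` and `g` is surjective
in homology in degree `q`. -/
theorem coneT_exact_of (K : Co P N) (hK : IsCx π U K) (S : Tg P π U) (g : K.ι → S.V)
    (hg : ChT K S g) (q : ℤ) (B : Sz P) (h1 : ZC π U K (q - 1) B ≤ BC π U K (q - 1) B)
    (h2 : ∀ y ∈ S.Zc q B, ∃ z ∈ ZC π U K q B, lin (N := N) g z - y ∈ S.Bc q B) :
    (coneT (homCh hK g hg)).Zc q B ≤ (coneT (homCh hK g hg)).Bc q B := by
  rintro ⟨x, y⟩ ⟨⟨hx, hy⟩, hd⟩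
  change x ∈ fam π U K.toOb B (q - 1) at hx
  change y ∈ S.fam B q at hy
  rw [coneT_d] at hd
  have hd1 : x ᵥ* K.d = 0 := neg_eq_zero.1 (congrArg Prod.fst hd)
  have hd2 : lin (N := N) g x + S.d y = 0 := congrArg Prod.snd hd
  obtain ⟨x', hx', hxx⟩ := h1 ⟨hx, hd1⟩
  rw [sub_add_cancel] at hx'
  have hcyc : y + lin (N := N) g x' ∈ S.Zc q B := by
    refine ⟨(S.fam B q).add_mem hy (hg.mem hx'), ?_⟩
    rw [map_add, ← hg.2 x', hxx, add_comm]
    exact hd2
  obtain ⟨z, hz, t, ht, hzt⟩ := h2 _ hcyc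
  refine ⟨(-x' + z, -t), ⟨?_, (S.fam B (q + 1)).neg_mem ht⟩, ?_⟩
  · change -x' + z ∈ fam π U K.toOb B (q + 1 - 1)
    rw [add_sub_cancel_right]
    exact AddSubgroup.add_mem _ (AddSubgroup.neg_mem _ hx') hz.1
  · rw [coneT_d]
    refine Prod.ext ?_ ?_
    · change -((-x' + z) ᵥ* K.d) = x
      rw [Matrix.add_vecMul, Matrix.neg_vecMul, hxx, hz.2, add_zero, neg_neg]
    · change lin (N := N) g (-x' + z) + S.d (-t) = y
      rw [map_add, map_neg, map_neg, hzt]
      abel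

end

section

variable {Γ : Type} [Group Γ] {D : Type} [Fintype D] [LinearOrder D] {V : D → Type}
  [∀ i, MulAction Γ (V i)] {T : ∀ i, SimpleGraph (V i)} {h : ∀ i, TreeAct Γ (V i) (T i)}
  {N : Type} [Group N] {π : N →* Γ} {ι : Type} [Fintype ι] [DecidableEq ι] {p : ι → Pos V}
  {ν : D → Matrix ι ι (ZM N)}

/-- The complex of a free nil module is exact outside of degree `n`. -/
theorem kc_exact (hF : StKF) (hp : FrOk T π p ν) (n : ℤ)
    (hK : IsCx π Finset.univ (Kc h N n p ν)) (q : ℤ) (hq : q ≠ n) (B : Sz (SP h)) :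
    ZC π Finset.univ (Kc h N n p ν) q B ≤ BC π Finset.univ (Kc h N n p ν) q B := by
  obtain ⟨κ, hκ, hfam, -⟩ := (hF Γ D V T h N π ι p ν hp n).2 hK
  rintro x ⟨hx, hdx⟩
  have h1 : κ.f x ∈ (KT h (Fr h hp) n).Zc q B := by
    refine ⟨κ.mem B q x hx, ?_⟩
    rw [← κ.d x]
    change κ.f (x ᵥ* (Kc h N n p ν).d) = 0
    rw [hdx]
    exact map_zero κ.f
  obtain ⟨w, hw, hwx⟩ := (stKX Γ D V T h N π (Fr h hp) n B).1 q hq h1
  obtain ⟨x', rfl⟩ := hκ.2 w
  refine ⟨x', hfam B (q + 1) x' hw, hκ.1 ?_⟩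
  rw [← hwx, ← κ.d x']
  rfl

/-- The complex of a free nil module is zero below degree `n`. -/
theorem kc_fam_lt (n : ℤ) {U : Finset D} {B : Sz (SP h)} {q : ℤ} (hq : q < n)
    {x : (Kc h N n p ν).ι → ZM N} (hx : x ∈ fam π U (Kc h N n p ν).toOb B q) : x = 0 := by
  funext l
  apply MonoidAlgebra.coeff_injective
  ext m
  by_contra hne
  have h1 := (hx l m hne).1
  change n + (l.2.card : ℤ) = q at h1
  omega

end

/-- The proof of module KLong. -/
theorem stKLong (hF : StKF) : StKLong := by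
  intro Γ _ D _ _ V _ T h N _ π S ι _ _ p ν n hp hK g hg hsur q hq hS B
  refine coneT_exact_of _ hK S g hg q B (kc_exact hF hp n hK (q - 1) (by omega) B) ?_
  intro y hy
  rcases hS with rfl | hS
  · obtain ⟨z, hz, hzy⟩ := hsur B y hy
    refine ⟨z, ⟨hz, ?_⟩, hzy⟩
    exact kc_fam_lt (π := π) (U := Finset.univ) (B := B) q (q := q - 1) (by omega)
      (fam_vecMul' hK.1 hz (by ring))
  · refine ⟨0, AddSubgroup.zero_mem _, ?_⟩
    rw [map_zero, zero_sub]
    exact (S.Bc q B).neg_mem (hS B hy)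

end Pool.Agent.Lib.MP_551055_al.W17
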