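import Pool.Agent.Lib.MP_551055_al.W17.DefK

/-!
# Trees and products: the target of a nil module
-/

set_option autoImplicit false

namespace Pool.Agent.Lib.MP_551055_al.W17

open Pool.Agent.Lib.MP_551055_al
open Pool.Agent.Lib.MP_551055_al.LS (TreeAct ZN)
open Pool.Agent.Lib.MP_551055_al.MT
open Matrix

section

variable {D : Type} [LinearOrder D]

theorem kta_sgn_succ (n : ℤ) : sgn (n + 1) = -sgn n := by
  unfold sgn
  rw [Int.negOnePow_succ, Units.val_neg]

theorem kta_eps_insert_lt (n : ℤ) {i j : D} {φ : Finset D} (hi : i ∉ φ) (hij : i < j) :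
    eps n j (insert i φ) = -eps n j φ := by
  unfold eps
  rw [Finset.filter_insert, if_pos hij, Finset.card_insert_of_notMem, Nat.cast_add, Nat.cast_one,
    ← add_assoc, kta_sgn_succ]
  exact fun h => hi (Finset.mem_of_mem_filter _ h)

theorem kta_eps_insert_gt (n : ℤ) {i j : D} {φ : Finset D} (hij : i < j) :
    eps n i (insert j φ) = eps n i φ := by
  unfold eps
  rw [Finset.filter_insert, if_neg (not_lt.2 hij.le)]

theorem kta_eps_swap (n : ℤ) {i j : D} {φ : Finset D} (hi : i ∉ φ) (hj : j ∉ φ) (hij : i ≠ j) :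
    eps n i φ * eps n j (insert i φ) + eps n j φ * eps n i (insert j φ) = 0 := by
  rcases lt_or_gt_of_ne hij with h | h
  · rw [kta_eps_insert_lt n hi h, kta_eps_insert_gt n h]
    ring
  · rw [kta_eps_insert_lt n hj h, kta_eps_insert_gt n h]
    ring

end

section

variable {Γ : Type} [Group Γ] {D : Type} {V : D → Type} [∀ i, MulAction Γ (V i)]
  {T : ∀ i, SimpleGraph (V i)} {N : Type} [Group N] {π : N →* Γ}

/-- A nonzero component of `ν i w` comes from a nonzero component of `w`. -/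
theorem kta_nu_comp (A : Nm T π) (i : D) (y : Pos V) (w : A.M) (h : A.pr y (A.nu i w) ≠ 0) :
    ∃ x, A.pr x w ≠ 0 ∧ Nx T i x y := by
  by_contra hc
  push Not at hc
  refine h ?_
  have h1 : (Function.support fun x => A.pr x w).Finite := A.fin w
  have h2 : A.pr y (A.nu i (∑ᶠ x, A.pr x w)) = ∑ᶠ x, A.pr y (A.nu i (A.pr x w)) :=
    ((A.pr y).comp (A.nu i).toAddMonoidHom).map_finsum h1
  rw [A.sum] at h2
  rw [h2]
  have h3 : ∀ x, A.pr y (A.nu i (A.pr x w)) = 0 := by
    intro x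
    by_contra h4
    refine hc x (fun h5 => h4 ?_) (A.loc i x y w h4)
    rw [h5, map_zero, map_zero]
  simp only [h3, finsum_zero]

/-- The action moves the components. -/
theorem kta_act (A : Nm T π) (g : N) (x : Pos V) (m : A.M)
    (h : A.pr x ((MonoidAlgebra.single g (1 : ℤ) : ZM N) • m) ≠ 0) :
    A.pr ((π g)⁻¹ • x) m ≠ 0 := by
  intro h1
  have h2 := A.act g ((π g)⁻¹ • x) m
  rw [smul_inv_smul, h1, smul_zero] at h2
  exact h h2.symm

end

section

variable {Γ : Type} [Group Γ] {D : Type} [LinearOrder D] {V : D → Type}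
  [∀ i, MulAction Γ (V i)] {T : ∀ i, SimpleGraph (V i)} (h : ∀ i, TreeAct Γ (V i) (T i))

theorem kta_sx_mem {x : Pos V} {φ : Finset D} {i : D} (hi : i ∈ φ) :
    sx h x φ i = vtx (h i) (x i).2 := if_pos hi

theorem kta_sx_notMem {x : Pos V} {φ : Finset D} {i : D} (hi : i ∉ φ) :
    sx h x φ i = edg (h i) (x i).1 (x i).2 := if_neg hi

theorem kta_sx_insert_ne {x : Pos V} {φ : Finset D} {i j : D} (hij : j ≠ i) :
    sx h x (insert i φ) j = sx h x φ j := by
  by_cases hj : j ∈ φ
  · rw [kta_sx_mem h hj, kta_sx_mem h (Finset.mem_insert_of_mem hj)]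
  · rw [kta_sx_notMem h hj, kta_sx_notMem h (fun h1 => (Finset.mem_insert.1 h1).elim hij hj)]

theorem kta_sx_congr {x y : Pos V} {φ : Finset D} {j : D} (hxy : y j = x j) :
    sx h y φ j = sx h x φ j := by
  unfold sx
  rw [hxy]

theorem kta_vtx_le_left {i : D} {u v : V i} (huv : (T i).Adj u v) :
    vtx (h i) u ≤ edg (h i) u v :=
  (vtx_le (h i)).2 (by rw [edg_set (h i) huv]; exact Or.inl rfl)

theorem kta_vtx_le_right {i : D} {u v : V i} (huv : (T i).Adj u v) :
    vtx (h i) v ≤ edg (h i) u v :=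
  (vtx_le (h i)).2 (by rw [edg_set (h i) huv]; exact Or.inr rfl)

/-- The sizes are equivariant. -/
theorem kta_smul_sx {x : Pos V} (hx : OE T x) (γ : Γ) (φ : Finset D) (i : D) :
    γ • sx h x φ i = sx h (γ • x) φ i := by
  by_cases hi : i ∈ φ
  · rw [kta_sx_mem h hi, kta_sx_mem h hi, smul_vtx]
    rfl
  · rw [kta_sx_notMem h hi, kta_sx_notMem h hi, smul_edg (h i) γ (hx i)]
    rfl

end

section

variable {Γ : Type} [Group Γ] {D : Type} [Fintype D] [LinearOrder D] {V : D → Type}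
  [∀ i, MulAction Γ (V i)] {T : ∀ i, SimpleGraph (V i)} (h : ∀ i, TreeAct Γ (V i) (T i))
  {N : Type} [Group N] {π : N →* Γ}

theorem kta_dd (A : Nm T π) (n : ℤ) (v : Finset D → A.M) : ktD A n (ktD A n v) = 0 := by
  funext φ
  let c : D → A.M → A.M := fun i m => m - A.nu i m
  let F : D → D → A.M := fun i j =>
    (eps n i φ * eps n j (insert i φ)) • (c i (c j (v (insert j (insert i φ)))))
  have hF : ktD A n (ktD A n v) φ =
      ∑ i ∈ Finset.univ \ φ, ∑ j ∈ Finset.univ \ insert i φ, F i j := by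
    change ∑ i ∈ Finset.univ \ φ, eps n i φ • ((∑ j ∈ Finset.univ \ insert i φ,
      eps n j (insert i φ) • (v (insert j (insert i φ)) - A.nu j (v (insert j (insert i φ))))) -
      A.nu i (∑ j ∈ Finset.univ \ insert i φ,
      eps n j (insert i φ) • (v (insert j (insert i φ)) - A.nu j (v (insert j (insert i φ)))))) = _
    refine Finset.sum_congr rfl fun i _ => ?_
    rw [map_sum, ← Finset.sum_sub_distrib, Finset.smul_sum]
    refine Finset.sum_congr rfl fun j _ => ?_
    rw [map_zsmul, ← smul_sub, smul_smul]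
  rw [hF, Finset.sum_sigma']
  have hcc : ∀ i j m, c i (c j m) = c j (c i m) := by
    intro i j m
    change (m - A.nu j m) - A.nu i (m - A.nu j m) = (m - A.nu i m) - A.nu j (m - A.nu i m)
    rw [map_sub, map_sub, A.comm i j m]
    abel
  refine Finset.sum_involution (fun p _ => ⟨p.2, p.1⟩) ?_ ?_ ?_ ?_
  · rintro ⟨i, j⟩ hp
    rw [Finset.mem_sigma, Finset.mem_sdiff, Finset.mem_sdiff, Finset.mem_insert, not_or] at hp
    obtain ⟨⟨-, hi⟩, -, hij, hj⟩ := hp
    change (eps n i φ * eps n j (insert i φ)) • (c i (c j (v (insert j (insert i φ))))) +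
      (eps n j φ * eps n i (insert j φ)) • (c j (c i (v (insert i (insert j φ))))) = 0
    rw [Finset.insert_comm i j φ, hcc i j, ← add_smul, kta_eps_swap n hi hj (Ne.symm hij),
      zero_smul]
  · rintro ⟨i, j⟩ hp _ heq
    rw [Finset.mem_sigma, Finset.mem_sdiff, Finset.mem_sdiff, Finset.mem_insert, not_or] at hp
    obtain ⟨⟨-, hi⟩, -, hij, hj⟩ := hp
    exact hij (congrArg Sigma.fst heq)
  · rintro ⟨i, j⟩ hp
    rw [Finset.mem_sigma, Finset.mem_sdiff, Finset.mem_sdiff, Finset.mem_insert, not_or] at hp ⊢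
    obtain ⟨⟨h1, hi⟩, h2, hij, hj⟩ := hp
    exact ⟨⟨h2, hj⟩, h1, Ne.symm hij, hi⟩
  · rintro ⟨i, j⟩ _
    rfl

theorem kta_mem (A : Nm T π) (n : ℤ) (B : Sz (SP h)) (q : ℤ) (v : Finset D → A.M)
    (hv : v ∈ ktFam h A n B q) : ktD A n v ∈ ktFam h A n B (q - 1) := by
  intro φ y hy
  have h1 : A.pr y (ktD A n v φ) = ∑ i ∈ Finset.univ \ φ,
      eps n i φ • (A.pr y (v (insert i φ)) - A.pr y (A.nu i (v (insert i φ)))) := by
    change A.pr y (∑ i ∈ Finset.univ \ φ,
      eps n i φ • (v (insert i φ) - A.nu i (v (insert i φ)))) = _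
    rw [map_sum]
    refine Finset.sum_congr rfl fun i _ => ?_
    rw [map_zsmul, map_sub]
  rw [h1] at hy
  obtain ⟨i, hi, hne⟩ := Finset.exists_ne_zero_of_sum_ne_zero hy
  rw [Finset.mem_sdiff] at hi
  have hcard : ((insert i φ).card : ℤ) = φ.card + 1 := by
    rw [Finset.card_insert_of_notMem hi.2, Nat.cast_add, Nat.cast_one]
  by_cases h2 : A.pr y (v (insert i φ)) = 0
  · have h3 : A.pr y (A.nu i (v (insert i φ))) ≠ 0 := by
      intro h4
      refine hne ?_
      rw [h2, h4, sub_zero, smul_zero]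
    obtain ⟨x, hx, hxy⟩ := kta_nu_comp A i y _ h3
    obtain ⟨h5, h6⟩ := hv (insert i φ) x hx
    refine ⟨by omega, fun j => ?_⟩
    by_cases hj : j = i
    · subst hj
      have h7 := h6 j
      rw [kta_sx_mem h (Finset.mem_insert_self j φ)] at h7
      rw [kta_sx_notMem h hi.2]
      refine h7.trans ?_
      rw [← hxy.2.1]
      exact kta_vtx_le_left h hxy.2.2.1
    · have h7 := h6 j
      rw [kta_sx_insert_ne h hj] at h7
      rw [kta_sx_congr h (hxy.1 j hj)]
      exact h7
  · obtain ⟨h5, h6⟩ := hv (insert i φ) y h2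
    refine ⟨by omega, fun j => ?_⟩
    by_cases hj : j = i
    · subst hj
      have h7 := h6 j
      rw [kta_sx_mem h (Finset.mem_insert_self j φ)] at h7
      rw [kta_sx_notMem h hi.2]
      exact h7.trans (kta_vtx_le_right h (A.oe y _ h2 j))
    · have h7 := h6 j
      rw [kta_sx_insert_ne h hj] at h7
      exact h7

/-- The proof of module KT. -/
theorem kta_stKT : StKT := by
  intro Γ _ D _ _ V _ T h N _ π A n
  refine ⟨kta_dd A n, fun B q v hv => kta_mem h A n B q v hv, ?_, ?_⟩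
  · intro B B' q hB v hv φ x hx
    obtain ⟨h1, h2⟩ := hv φ x hx
    exact ⟨h1, fun i => (hB i).trans (h2 i)⟩
  · intro g B q v hv φ x hx
    have h1 : A.pr ((π g)⁻¹ • x) (v φ) ≠ 0 := kta_act A g x (v φ) hx
    obtain ⟨h2, h3⟩ := hv φ _ h1
    refine ⟨h2, fun i => ?_⟩
    have h4 : π g • B i ≤ π g • sx h ((π g)⁻¹ • x) φ i := SzAct.smul_le (P := SP h) (h3 i)
    rw [kta_smul_sx h (A.oe _ _ h1), smul_inv_smul] at h4
    exact h4

end

end Pool.Agent.Lib.MP_551055_al.W17
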