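import Pool.Agent.Lib.MP_551055_al.W17.DefK
import Pool.Agent.Lib.MP_551055_al.W17.FrA
import Pool.Agent.Lib.MP_551055_al.W17.KTa

/-!
# Trees and products: the targets of nil modules, free nil modules, cones of targets
-/

set_option autoImplicit false

namespace Pool.Agent.Lib.MP_551055_al.W17

open Pool.Agent.Lib.MP_551055_al
open Pool.Agent.Lib.MP_551055_al.LS (TreeAct ZN)
open Pool.Agent.Lib.MP_551055_al.MT
open Pool.Agent.Lib.MP_551055_al.T4 (Perf)
open Matrix

/-- Module KT. -/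
theorem stKT : StKT := kta_stKT

section

variable {Γ : Type} [Group Γ] {D : Type} {V : D → Type} [∀ i, MulAction Γ (V i)]
  {T : ∀ i, SimpleGraph (V i)} {N : Type} [Group N] {π : N →* Γ}

/-- The target of a nil module. -/
noncomputable def KT [Fintype D] [LinearOrder D] (h : ∀ i, TreeAct Γ (V i) (T i)) (A : Nm T π)
    (n : ℤ) : Tg (SP h) π Finset.univ where
  V := Finset D → A.M
  ag := inferInstance
  md := inferInstance
  fam := ktFam h A n
  d := ktD A n
  anti B B' q hB := (stKT Γ D V T h N π A n).2.2.1 B B' q fun i => hB i (Finset.mem_univ i)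
  act g B q := (stKT Γ D V T h N π A n).2.2.2 g B q
  d_mem B q := (stKT Γ D V T h N π A n).2.1 B q
  dd := (stKT Γ D V T h N π A n).1

variable {ι : Type} [Fintype ι] [DecidableEq ι] {p : ι → Pos V} {ν : D → Matrix ι ι (ZM N)}

/-- The free nil module. -/
noncomputable def Fr (h : ∀ i, TreeAct Γ (V i) (T i)) (hp : FrOk T π p ν) : Nm T π where
  M := ι → ZM N
  ag := inferInstance
  md := inferInstance
  pr := frPr π p
  nu i := Matrix.vecMulLinear (ν i)
  pr_self := frPr_self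
  pr_ne := frPr_ne
  fin := frPr_fin
  sum := frPr_sum
  act := frPr_act
  oe x m hm := frPr_oe hp x m hm fun γ i u w => (h i).adj γ u w
  comm i j m := by
    change (m ᵥ* ν j) ᵥ* ν i = (m ᵥ* ν i) ᵥ* ν j
    rw [Matrix.vecMul_vecMul, Matrix.vecMul_vecMul, hp.comm]
  loc i x y m hm := frPr_loc hp (fun γ i u w => (h i).adj γ u w) i x y m hm
  nil i := by
    obtain ⟨K, hK⟩ := hp.nil i
    refine ⟨K, LinearMap.ext fun v => ?_⟩
    rw [vecMul_pow, hK, Matrix.vecMul_zero]
    rfl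

theorem Fr_nu (h : ∀ i, TreeAct Γ (V i) (T i)) (hp : FrOk T π p ν) (i : D) (v : ι → ZM N) :
    (Fr h hp).nu i v = v ᵥ* ν i := rfl

theorem Fr_pr (h : ∀ i, TreeAct Γ (V i) (T i)) (hp : FrOk T π p ν) (x : Pos V) (v : ι → ZM N) :
    (Fr h hp).pr x v = frPr π p x v := rfl

end

/-! ## Maps and cones of targets -/

section

variable {Γ : Type} [Group Γ] {D : Type} {P : D → Type} [∀ i, PartialOrder (P i)]
  [∀ i, MulAction Γ (P i)] {N : Type} [Monoid N] {π : N →* Γ} {U : Finset D}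

/-- Maps of targets. -/
structure TgHom (T T' : Tg P π U) where
  f : T.V →ₗ[ZM N] T'.V
  mem : ∀ B q, ∀ x ∈ T.fam B q, f x ∈ T'.fam B q
  d : ∀ x, f (T.d x) = T'.d (f x)

/-- Isomorphisms in homology. -/
def HIso {T T' : Tg P π U} (γ : TgHom T T') : Prop :=
  ∀ q B, (∀ x ∈ T.Zc q B, γ.f x ∈ T'.Bc q B → x ∈ T.Bc q B) ∧
    ∀ y ∈ T'.Zc q B, ∃ x ∈ T.Zc q B, γ.f x - y ∈ T'.Bc q B

/-- The cone of a map of targets. -/
noncomputable def coneT {T T' : Tg P π U} (γ : TgHom T T') : Tg P π U where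
  V := T.V × T'.V
  ag := inferInstance
  md := inferInstance
  fam B q := (T.fam B (q - 1)).prod (T'.fam B q)
  d := (-(T.d ∘ₗ LinearMap.fst _ _ _)).prod
    (γ.f ∘ₗ LinearMap.fst _ _ _ + T'.d ∘ₗ LinearMap.snd _ _ _)
  anti B B' q hB x hx := ⟨T.anti B B' _ hB hx.1, T'.anti B B' _ hB hx.2⟩
  act g B q x hx := ⟨T.act g B _ _ hx.1, T'.act g B _ _ hx.2⟩
  d_mem B q x hx := by
    refine ⟨(T.fam B (q - 1 - 1)).neg_mem (T.d_mem B _ _ hx.1), ?_⟩
    exact (T'.fam B (q - 1)).add_mem (γ.mem B _ _ hx.1) (T'.d_mem B _ _ hx.2)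
  dd x := by
    refine Prod.ext ?_ ?_
    · change -(T.d (-(T.d x.1))) = 0
      rw [map_neg, T.dd, neg_zero, neg_zero]
    · change γ.f (-(T.d x.1)) + T'.d (γ.f x.1 + T'.d x.2) = 0
      rw [map_neg, map_add, T'.dd, γ.d, add_zero, neg_add_cancel]

theorem coneT_d {T T' : Tg P π U} (γ : TgHom T T') (x : T.V × T'.V) :
    (coneT γ).d x = (-(T.d x.1), γ.f x.1 + T'.d x.2) := rfl

/-- A chain map from a finite complex as a map of targets. -/
noncomputable def homCh [SzAct Γ P] {K : Co P N} (hK : IsCx π U K) {T : Tg P π U} (g : K.ι → T.V)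
    (hg : ChT K T g) : TgHom (Tg.ofCo K hK) T where
  f := lin (N := N) g
  mem B q x hx := hg.mem hx
  d x := hg.2 x

end

section

variable {Γ : Type} [Group Γ] {D : Type} {V : D → Type} [∀ i, MulAction Γ (V i)]
  {T : ∀ i, SimpleGraph (V i)} {N : Type} [Group N] {π : N →* Γ}

/-- A homomorphism of nil modules gives a map of targets. -/
noncomputable def ktHom [Fintype D] [LinearOrder D] (h : ∀ i, TreeAct Γ (V i) (T i))
    {A B : Nm T π} (f : NmHom A B) (n : ℤ) : TgHom (KT h A n) (KT h B n) where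
  f := f.f.compLeft (Finset D)
  mem C q v hv φ x hx := by
    refine hv φ x fun h1 => hx ?_
    change B.pr x (f.f (v φ)) = 0
    rw [← f.pr, h1, map_zero]
  d v := by
    funext φ
    change f.f (∑ i ∈ Finset.univ \ φ, eps n i φ • (v (insert i φ) - A.nu i (v (insert i φ)))) =
      ∑ i ∈ Finset.univ \ φ, eps n i φ • (f.f (v (insert i φ)) - B.nu i (f.f (v (insert i φ))))
    rw [map_sum]
    refine Finset.sum_congr rfl fun i _ => ?_
    rw [map_zsmul, map_sub, f.nu]

end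

/-! ## The class `Cls` -/

section

variable {Γ : Type} [Group Γ] {D : Type} [Fintype D] [LinearOrder D] {V : D → Type}
  [∀ i, MulAction Γ (V i)] {T : ∀ i, SimpleGraph (V i)} (h : ∀ i, TreeAct Γ (V i) (T i))
  {N : Type} [Group N] (π : N →* Γ)

/-- The triangulated closure of the elementary complexes. -/
inductive Cls : Co (SP h) N → Prop
  | el {ι : Type} [Fintype ι] [DecidableEq ι] (p : ι → Pos V) (n : ℤ) :
      (∀ l, OE T (p l)) → Cls (Kc h N n p fun _ => 0)
  | cone {X Y : Co (SP h) N} (f : Matrix X.ι Y.ι (ZM N)) : Cls X → Cls Y →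
      Ch π Finset.univ X Y f → Cls (MT.cone X Y f)
  | iso {X Y : Co (SP h) N} : Cls X → IsCx π Finset.univ Y → Cel h Finset.univ Y.toOb →
      Iso π Finset.univ X 1 Y 1 → Cls Y

/-- The target has a finite approximation in the class. -/
def InC (S : Tg (SP h) π Finset.univ) : Prop :=
  ∃ (Q : Co (SP h) N) (g : Q.ι → S.V), Cls h π Q ∧ IsCx π Finset.univ Q ∧ ChT Q S g ∧
    (∀ q, InjT Q S g q) ∧ ∀ q, SurT Q S g q

variable {h π}

/-- `S` is a retract of the finite complex `M`, the map `u : M → S` vanishes in degrees `< n`. -/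
def RetT (S : Tg (SP h) π Finset.univ) (M : Co (SP h) N) (n : ℤ) : Prop :=
  ∃ (u : (M.ι → ZM N) →ₗ[ZM N] S.V) (v : S.V →ₗ[ZM N] (M.ι → ZM N)) (r : S.V →ₗ[ZM N] S.V),
    (∀ B q, ∀ x ∈ fam π Finset.univ M.toOb B q, u x ∈ S.fam B q) ∧
    (∀ B q, ∀ y ∈ S.fam B q, v y ∈ fam π Finset.univ M.toOb B q) ∧
    (∀ B q, ∀ y ∈ S.fam B q, r y ∈ S.fam B (q + 1)) ∧
    (∀ x, u (x ᵥ* M.d) = S.d (u x)) ∧ (∀ y, v (S.d y) = v y ᵥ* M.d) ∧
    (∀ y, u (v y) = y + S.d (r y) + r (S.d y)) ∧
    ∀ l, M.deg l < n → u (Pi.single l 1) = 0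

variable (h π)

/-- Finite complexes of cells which are acyclic in all directions. -/
structure Acy (M : Co (SP h) N) : Prop where
  cx : IsCx π Finset.univ M
  cel : Cel h Finset.univ M.toOb
  con : ∀ i, Contr π (Finset.univ.erase i) M

end

end Pool.Agent.Lib.MP_551055_al.W17
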